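import Pool.Agent.PCap704.Long

set_option autoImplicit false
open MeasureTheory Set Metric Filter
open scoped ENNReal NNReal Topology ComplexConjugate EuclideanGeometry

namespace Pool.Agent.PCap704

/-- Data of a nondegenerate triangle (unoriented), used for the corollaries. -/
theorem facts (A B C : ℂ) (hnc : ¬ Collinear ℝ {A, B, C})
    (L : ℝ) (hL : L = dist A B + dist B C + dist C A) :
    0 < dist A B ∧ 0 < dist B C ∧ 0 < dist C A ∧
    0 < ∠ B A C ∧ 0 < ∠ C B A ∧ 0 < ∠ A C B ∧ ∠ B A C + ∠ C B A + ∠ A C B = Real.pi ∧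
    2 * dist B C ≤ L ∧ 2 * dist C A ≤ L ∧ 2 * dist A B ≤ L ∧
    L / (2 * Real.pi) * ∠ B A C ≤ dist B C ∧ L / (2 * Real.pi) * ∠ C B A ≤ dist C A ∧
    L / (2 * Real.pi) * ∠ A C B ≤ dist A B := by
  have hpi := Real.pi_pos
  have hAB : A ≠ B := ne₁₂_of_not_collinear hnc
  have hAC : A ≠ C := ne₁₃_of_not_collinear hnc
  have hBC : B ≠ C := ne₂₃_of_not_collinear hnc
  have pc : 0 < dist A B := dist_pos.2 hAB
  have pa : 0 < dist B C := dist_pos.2 hBC
  have pb : 0 < dist C A := dist_pos.2 hAC.symm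
  have hcolBAC : ¬ Collinear ℝ {B, A, C} := by rw [Set.insert_comm]; exact hnc
  have hcolCBA : ¬ Collinear ℝ {C, B, A} := by
    have : ({C, B, A} : Set ℂ) = {A, B, C} := by
      ext z; simp only [mem_insert_iff, mem_singleton_iff]; tauto
    rw [this]; exact hnc
  have hcolACB : ¬ Collinear ℝ {A, C, B} := by
    have : ({A, C, B} : Set ℂ) = {A, B, C} := by
      ext z; simp only [mem_insert_iff, mem_singleton_iff]; tauto
    rw [this]; exact hnc
  have q1 : 0 < ∠ B A C := EuclideanGeometry.angle_pos_of_not_collinear hcolBAC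
  have q2 : 0 < ∠ C B A := EuclideanGeometry.angle_pos_of_not_collinear hcolCBA
  have q3 : 0 < ∠ A C B := EuclideanGeometry.angle_pos_of_not_collinear hcolACB
  have hsumang : ∠ B A C + ∠ C B A + ∠ A C B = Real.pi := by
    have := EuclideanGeometry.angle_add_angle_add_angle_eq_pi C hAB.symm
    rw [EuclideanGeometry.angle_comm A B C, EuclideanGeometry.angle_comm B C A,
      EuclideanGeometry.angle_comm C A B] at this
    linarith
  have tri1 : dist B C ≤ dist A B + dist C A := by
    have := dist_triangle B A C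
    rw [dist_comm B A, dist_comm A C] at this; exact this
  have tri2 : dist C A ≤ dist A B + dist B C := by
    have := dist_triangle C B A
    rw [dist_comm C B, dist_comm B A] at this; linarith
  have tri3 : dist A B ≤ dist B C + dist C A := by
    have := dist_triangle A C B
    rw [dist_comm A C, dist_comm C B] at this; linarith
  have s1 : L * ∠ B A C ≤ 2 * Real.pi * dist B C := by
    have lc := EuclideanGeometry.law_cos B A C
    have := side_ge (dist B C) (dist C A) (dist A B) (∠ B A C) pa pb pc q1.le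
      (EuclideanGeometry.angle_le_pi _ _ _) (by
        rw [dist_comm B A] at lc
        nlinarith [lc])
    rw [hL]; linarith
  have s2 : L * ∠ C B A ≤ 2 * Real.pi * dist C A := by
    have lc := EuclideanGeometry.law_cos C B A
    have := side_ge (dist C A) (dist A B) (dist B C) (∠ C B A) pb pc pa q2.le
      (EuclideanGeometry.angle_le_pi _ _ _) (by
        rw [dist_comm C B] at lc
        nlinarith [lc])
    rw [hL]; linarith
  have s3 : L * ∠ A C B ≤ 2 * Real.pi * dist A B := by
    have lc := EuclideanGeometry.law_cos A C B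
    have := side_ge (dist A B) (dist B C) (dist C A) (∠ A C B) pc pa pb q3.le
      (EuclideanGeometry.angle_le_pi _ _ _) (by
        rw [dist_comm A C] at lc
        nlinarith [lc])
    rw [hL]; linarith
  have conv : ∀ θ s : ℝ, L * θ ≤ 2 * Real.pi * s → L / (2 * Real.pi) * θ ≤ s := by
    intro θ s h
    rw [div_mul_eq_mul_div, div_le_iff₀ (by positivity)]
    linarith
  exact ⟨pc, pa, pb, q1, q2, q3, hsumang, by rw [hL]; linarith, by rw [hL]; linarith,
    by rw [hL]; linarith, conv _ _ s1, conv _ _ s2, conv _ _ s3⟩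

/-- nonobtuse triangles are balanced. -/
theorem tri_nonobtuse (p : ℝ) (hp : 0 < p) (A B C : ℂ) (hnc : ¬ Collinear ℝ {A, B, C})
    (E F : ℂ) (L : ℝ) (hL : L = dist A B + dist B C + dist C A) (hEF : 2 * dist E F = L)
    (o1 : ∠ B A C ≤ Real.pi/2) (o2 : ∠ C B A ≤ Real.pi/2) (o3 : ∠ A C B ≤ Real.pi/2) :
    cap p (segment ℝ E F) ≤ cap p (convexHull ℝ {A, B, C}) := by
  obtain ⟨pc, pa, pb, q1, q2, q3, hs, t1, t2, t3, f1, f2, f3⟩ := facts A B C hnc L hL
  have hpi := Real.pi_pos
  have hLp : 0 < L := by rw [hL]; positivity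
  have hμp : 0 < L / (2 * Real.pi) := by positivity
  set μ := L / (2 * Real.pi) with hμ
  have hM : μ * Real.pi = L / 2 := by rw [hμ]; field_simp
  have hsum : μ * ∠ B A C + μ * ∠ C B A + μ * ∠ A C B = L / 2 := by
    rw [← hM, ← hs]; ring
  have m1 : μ * ∠ B A C ≤ L/4 := by
    have := mul_le_mul_of_nonneg_left o1 hμp.le
    have e : μ * (Real.pi/2) = L/4 := by
      have : μ * (Real.pi/2) = (μ * Real.pi)/2 := by ring
      rw [this, hM]; ring
    linarith
  have m2 : μ * ∠ C B A ≤ L/4 := by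
    have := mul_le_mul_of_nonneg_left o2 hμp.le
    have e : μ * (Real.pi/2) = L/4 := by
      have : μ * (Real.pi/2) = (μ * Real.pi)/2 := by ring
      rw [this, hM]; ring
    linarith
  have m3 : μ * ∠ A C B ≤ L/4 := by
    have := mul_le_mul_of_nonneg_left o3 hμp.le
    have e : μ * (Real.pi/2) = L/4 := by
      have : μ * (Real.pi/2) = (μ * Real.pi)/2 := by ring
      rw [this, hM]; ring
    linarith
  apply tri_general p hp A B C hnc E F L hL hEF
  · exact ⟨by rw [← hμ]; linarith, by rw [← hμ]; linarith⟩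
  · exact ⟨by rw [← hμ]; linarith, by rw [← hμ]; linarith⟩
  · exact ⟨by rw [← hμ]; linarith, by rw [← hμ]; linarith⟩
  · exact ⟨by rw [← hμ]; linarith, by rw [← hμ]; linarith⟩
  · exact ⟨by rw [← hμ]; linarith, by rw [← hμ]; linarith⟩
  · exact ⟨by rw [← hμ]; linarith, by rw [← hμ]; linarith⟩

/-- isosceles triangles are balanced. -/
theorem tri_isosceles (p : ℝ) (hp : 0 < p) (A B C : ℂ) (hnc : ¬ Collinear ℝ {A, B, C})
    (E F : ℂ) (L : ℝ) (hL : L = dist A B + dist B C + dist C A) (hEF : 2 * dist E F = L)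
    (hiso : dist A B = dist C A) :
    cap p (segment ℝ E F) ≤ cap p (convexHull ℝ {A, B, C}) := by
  obtain ⟨pc, pa, pb, q1, q2, q3, hs, t1, t2, t3, f1, f2, f3⟩ := facts A B C hnc L hL
  have hpi := Real.pi_pos
  have hLp : 0 < L := by rw [hL]; positivity
  have hμp : 0 < L / (2 * Real.pi) := by positivity
  set μ := L / (2 * Real.pi) with hμ
  have hM : μ * Real.pi = L / 2 := by rw [hμ]; field_simp
  have hsum : μ * ∠ B A C + μ * ∠ C B A + μ * ∠ A C B = L / 2 := by
    rw [← hM, ← hs]; ring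
  have hang : ∠ C B A = ∠ A C B := by
    have := EuclideanGeometry.angle_eq_angle_of_dist_eq (p₁ := A) (p₂ := B) (p₃ := C)
      (by rw [hiso, dist_comm])
    rw [EuclideanGeometry.angle_comm C B A]
    exact this
  have hang' : μ * ∠ C B A = μ * ∠ A C B := by rw [hang]
  have z1 : 0 < μ * ∠ B A C := by positivity
  have z2 : 0 < μ * ∠ C B A := by positivity
  apply tri_general p hp A B C hnc E F L hL hEF
  · exact ⟨by rw [← hμ]; linarith, by rw [← hμ]; linarith⟩
  · exact ⟨by rw [← hμ]; linarith, by rw [← hμ]; linarith⟩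
  · exact ⟨by rw [← hμ]; linarith, by rw [← hμ]; linarith⟩
  · exact ⟨by rw [← hμ]; linarith, by rw [← hμ]; linarith⟩
  · exact ⟨by rw [← hμ]; linarith, by rw [← hμ]; linarith⟩
  · exact ⟨by rw [← hμ]; linarith, by rw [← hμ]; linarith⟩

/-- balance from the lengths: `s, s'` adjacent to the angle `θ`, `o` opposite. -/
theorem bal_of_long (s s' o θ L : ℝ) (hs : 0 < s) (hs' : 0 < s') (hθ : 0 < θ)
    (hθ1 : θ < Real.pi) (hL : L = s + s' + o) (hsL : 2 * s ≤ L)
    (h1 : s' ≤ 0.47 * L) (h2 : o ≤ 0.47 * L) (h3 : s ≤ 0.47 * L)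
    (hlc : o^2 = s^2 + s'^2 - 2*s*s'*Real.cos θ) (ho : 0 < o) : Bal L s θ := by
  have hpi := Real.pi_pos
  have hLp : 0 < L := by rw [hL]; positivity
  set μ := L / (2 * Real.pi) with hμ
  have hμp : 0 < μ := by rw [hμ]; positivity
  have hM : μ * Real.pi = L / 2 := by rw [hμ]; field_simp
  have es : s = μ * (s/μ) := by field_simp
  have es' : s' = μ * (s'/μ) := by field_simp
  have eo : o = μ * (o/μ) := by field_simp
  have hsum : s/μ + s'/μ + o/μ = 2 * Real.pi := by
    have : μ * (s/μ + s'/μ + o/μ) = μ * (2 * Real.pi) := by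
      have e1 : μ * (s/μ + s'/μ + o/μ) = μ * (s/μ) + μ * (s'/μ) + μ * (o/μ) := by ring
      rw [e1, ← es, ← es', ← eo, ← hL]
      linarith
    exact mul_left_cancel₀ hμp.ne' this
  have hlc' : (o/μ)^2 = (s/μ)^2 + (s'/μ)^2 - 2*(s/μ)*(s'/μ)*Real.cos θ := by
    have : (o/μ)^2 = o^2/μ^2 := by ring
    rw [this, hlc]; field_simp
  have b1 : s'/μ ≤ 0.94 * Real.pi := by
    rw [div_le_iff₀ hμp]
    calc s' ≤ 0.47 * L := h1
      _ = 0.94 * (μ * Real.pi) := by rw [hM]; ring
      _ = _ := by ring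
  have b2 : o/μ ≤ 0.94 * Real.pi := by
    rw [div_le_iff₀ hμp]
    calc o ≤ 0.47 * L := h2
      _ = 0.94 * (μ * Real.pi) := by rw [hM]; ring
      _ = _ := by ring
  have b3 : s/μ ≤ 0.94 * Real.pi := by
    rw [div_le_iff₀ hμp]
    calc s ≤ 0.47 * L := h3
      _ = 0.94 * (μ * Real.pi) := by rw [hM]; ring
      _ = _ := by ring
  have low : Real.pi/2 ≤ s/μ + θ := by
    by_contra h
    rw [not_le] at h
    apply long1 (s'/μ) (s/μ) θ (by positivity) b1 (by positivity) hθ h
    have e : 2*Real.pi - s'/μ - s/μ = o/μ := by linarith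
    rw [e, hlc']; ring
  have up : s/μ + θ ≤ 3*Real.pi/2 := by
    by_contra h
    rw [not_le] at h
    exact long2 (s/μ) (o/μ) (s'/μ) θ (by linarith) (by positivity) b2 (by linarith) hθ1
      (by linarith) hlc'
  constructor
  · rw [← hμ]
    calc L/4 = μ * (Real.pi/2) := by
          have : μ * (Real.pi/2) = (μ * Real.pi)/2 := by ring
          rw [this, hM]; ring
      _ ≤ μ * (s/μ + θ) := mul_le_mul_of_nonneg_left low hμp.le
      _ = s + μ * θ := by rw [mul_add, ← es]
  · rw [← hμ]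
    calc s + μ * θ = μ * (s/μ + θ) := by rw [mul_add, ← es]
      _ ≤ μ * (3*Real.pi/2) := mul_le_mul_of_nonneg_left up hμp.le
      _ = 3*L/4 := by
          have : μ * (3*Real.pi/2) = 3*(μ * Real.pi)/2 := by ring
          rw [this, hM]; ring

/-- triangles whose longest side is at most `47 %` of the perimeter. -/
theorem tri_long (p : ℝ) (hp : 0 < p) (A B C : ℂ) (hnc : ¬ Collinear ℝ {A, B, C})
    (E F : ℂ) (L : ℝ) (hL : L = dist A B + dist B C + dist C A) (hEF : 2 * dist E F = L)
    (o1 : dist A B ≤ 0.47 * L) (o2 : dist B C ≤ 0.47 * L) (o3 : dist C A ≤ 0.47 * L) :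
    cap p (segment ℝ E F) ≤ cap p (convexHull ℝ {A, B, C}) := by
  obtain ⟨pc, pa, pb, q1, q2, q3, hs, t1, t2, t3, f1, f2, f3⟩ := facts A B C hnc L hL
  have hpi := Real.pi_pos
  have lc1 := EuclideanGeometry.law_cos B A C
  rw [dist_comm B A] at lc1
  have lc2 := EuclideanGeometry.law_cos C B A
  rw [dist_comm C B] at lc2
  have lc3 := EuclideanGeometry.law_cos A C B
  rw [dist_comm A C] at lc3
  apply tri_general p hp A B C hnc E F L hL hEF
  · exact bal_of_long (dist A B) (dist C A) (dist B C) _ L pc pb q1 (by linarith)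
      (by rw [hL]; ring) t3 o3 o2 o1 (by rw [sq, sq, sq]; linarith [lc1]) pa
  · exact bal_of_long (dist C A) (dist A B) (dist B C) _ L pb pc q1 (by linarith)
      (by rw [hL]; ring) t2 o1 o2 o3 (by rw [sq, sq, sq]; linarith [lc1]) pa
  · exact bal_of_long (dist A B) (dist B C) (dist C A) _ L pc pa q2 (by linarith)
      (by rw [hL]) t3 o2 o3 o1 (by rw [sq, sq, sq]; linarith [lc2]) pb
  · exact bal_of_long (dist B C) (dist A B) (dist C A) _ L pa pc q2 (by linarith)
      (by rw [hL]; ring) t1 o1 o3 o2 (by rw [sq, sq, sq]; linarith [lc2]) pb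
  · exact bal_of_long (dist B C) (dist C A) (dist A B) _ L pa pb q3 (by linarith)
      (by rw [hL]; ring) t1 o3 o1 o2 (by rw [sq, sq, sq]; linarith [lc3]) pc
  · exact bal_of_long (dist C A) (dist B C) (dist A B) _ L pb pa q3 (by linarith)
      (by rw [hL]; ring) t2 o2 o1 o3 (by rw [sq, sq, sq]; linarith [lc3]) pc

end Pool.Agent.PCap704
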