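import Mathlib

set_option autoImplicit false
open MeasureTheory Set Metric Filter
open scoped ENNReal NNReal Topology

namespace Pool.Agent.PCap704

/-- angular compression (around `0`, towards the imaginary axis) by the factor `lam`. -/
noncomputable def polC (lam : ℝ) (z : ℂ) : ℂ :=
  (‖z‖ : ℂ) * Complex.exp (((Real.pi/2 - (Real.pi/2 - Complex.arg z)/lam : ℝ) : ℂ) * Complex.I)

noncomputable def Phi (lam : ℝ) (z : ℂ) : ℂ :=
  if z.re ≤ 0 then ⟨z.re / lam, z.im⟩ else polC lam z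

noncomputable def fold (X : ℝ) (z : ℂ) : ℂ := ⟨|z.re + X| - X, |z.im|⟩

noncomputable def Psi (lam X : ℝ) (z : ℂ) : ℂ := Phi lam (fold X z)

theorem norm_sub_sq_polar (r s a b : ℝ) :
    ‖(r:ℂ) * Complex.exp ((a:ℂ) * Complex.I) - (s:ℂ) * Complex.exp ((b:ℂ) * Complex.I)‖^2
      = r^2 + s^2 - 2*r*s*Real.cos (a - b) := by
  rw [← Complex.normSq_eq_norm_sq, Complex.normSq_apply]
  simp only [Complex.sub_re, Complex.sub_im, Complex.mul_re, Complex.mul_im, Complex.ofReal_re,
    Complex.ofReal_im, Complex.exp_ofReal_mul_I_re, Complex.exp_ofReal_mul_I_im, zero_mul, sub_zero,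
    add_zero]
  rw [Real.cos_sub]
  have h1 := Real.sin_sq_add_cos_sq a
  have h2 := Real.sin_sq_add_cos_sq b
  linear_combination r^2 * h1 + s^2 * h2

theorem polC_dist (lam : ℝ) (hl : 1 ≤ lam) (z w : ℂ) (hz : 0 ≤ z.re) (hz' : 0 ≤ z.im)
    (hw : 0 ≤ w.re) (hw' : 0 ≤ w.im) : ‖polC lam z - polC lam w‖ ≤ ‖z - w‖ := by
  have ha0 : 0 ≤ z.arg := Complex.arg_nonneg_iff.2 hz'
  have hb0 : 0 ≤ w.arg := Complex.arg_nonneg_iff.2 hw'
  have ha1 : z.arg ≤ Real.pi/2 := (abs_le.1 (Complex.abs_arg_le_pi_div_two_iff.2 hz)).2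
  have hb1 : w.arg ≤ Real.pi/2 := (abs_le.1 (Complex.abs_arg_le_pi_div_two_iff.2 hw)).2
  have hlp : 0 < lam := by linarith
  rw [← sq_le_sq₀ (norm_nonneg _) (norm_nonneg _)]
  unfold polC
  rw [norm_sub_sq_polar]
  conv_rhs => rw [← Complex.norm_mul_exp_arg_mul_I z, ← Complex.norm_mul_exp_arg_mul_I w]
  rw [norm_sub_sq_polar]
  have hcos : Real.cos (z.arg - w.arg) ≤ Real.cos ((Real.pi/2 - (Real.pi/2 - z.arg)/lam) -
      (Real.pi/2 - (Real.pi/2 - w.arg)/lam)) := by
    have e : (Real.pi/2 - (Real.pi/2 - z.arg)/lam) -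
      (Real.pi/2 - (Real.pi/2 - w.arg)/lam) = (z.arg - w.arg)/lam := by
      field_simp
      ring
    rw [e, ← Real.cos_abs (z.arg - w.arg), ← Real.cos_abs ((z.arg - w.arg)/lam)]
    apply Real.cos_le_cos_of_nonneg_of_le_pi (abs_nonneg _)
    · rw [abs_le]; constructor <;> linarith [Real.pi_pos]
    · rw [abs_div, abs_of_pos hlp]
      apply div_le_self (abs_nonneg _) hl
  have hrs : 0 ≤ 2 * ‖z‖ * ‖w‖ := by positivity
  nlinarith [mul_le_mul_of_nonneg_left hcos hrs]

theorem Phi_eq_polC (lam : ℝ) (z : ℂ) (hz : 0 ≤ z.re) (hz' : 0 ≤ z.im) :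
    Phi lam z = polC lam z := by
  unfold Phi
  split_ifs with h
  · have h0 : z.re = 0 := le_antisymm h hz
    rcases eq_or_lt_of_le hz' with h1 | h1
    · have : z = 0 := Complex.ext h0 h1.symm
      subst this
      simp [polC]
      rfl
    · have hzI : z = (z.im : ℂ) * Complex.I := by
        apply Complex.ext <;> simp [h0]
      have harg : z.arg = Real.pi/2 := by
        rw [hzI]; exact Complex.arg_real_mul Complex.I h1 ▸ Complex.arg_I
      have hn : ‖z‖ = z.im := by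
        rw [hzI]; simp [abs_of_pos h1]
      unfold polC
      rw [harg, hn, h0]
      simp only [sub_self, zero_div, sub_zero]
      apply Complex.ext
      · rw [Complex.mul_re, Complex.exp_ofReal_mul_I_re, Complex.exp_ofReal_mul_I_im]
        simp
      · rw [Complex.mul_im, Complex.exp_ofReal_mul_I_re, Complex.exp_ofReal_mul_I_im]
        simp
  · rfl

theorem Phi_dist_left (lam : ℝ) (hl : 1 ≤ lam) (z w : ℂ) (hz : z.re ≤ 0) (hw : w.re ≤ 0) :
    ‖Phi lam z - Phi lam w‖ ≤ ‖z - w‖ := by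
  unfold Phi
  rw [if_pos hz, if_pos hw]
  have hlp : 0 < lam := by linarith
  rw [← sq_le_sq₀ (norm_nonneg _) (norm_nonneg _), ← Complex.normSq_eq_norm_sq,
    ← Complex.normSq_eq_norm_sq, Complex.normSq_apply, Complex.normSq_apply]
  simp only [Complex.sub_re, Complex.sub_im]
  have : (z.re / lam - w.re / lam) * (z.re / lam - w.re / lam) ≤ (z.re - w.re) * (z.re - w.re) := by
    have e : (z.re / lam - w.re / lam) * (z.re / lam - w.re / lam) =
      (z.re - w.re) * (z.re - w.re) / (lam * lam) := by field_simp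
    rw [e]
    apply div_le_self (mul_self_nonneg _)
    nlinarith
  linarith

theorem Phi_dist (lam : ℝ) (hl : 1 ≤ lam) (z w : ℂ) (hz' : 0 ≤ z.im) (hw' : 0 ≤ w.im) :
    ‖Phi lam z - Phi lam w‖ ≤ ‖z - w‖ := by
  -- crossing case
  have cross : ∀ z w : ℂ, 0 ≤ z.im → 0 ≤ w.im → z.re < 0 → 0 < w.re →
      ‖Phi lam z - Phi lam w‖ ≤ ‖z - w‖ := by
    intro z w hz' hw' hz hw
    have hd : 0 < w.re - z.re := by linarith
    set τ : ℝ := (-z.re) / (w.re - z.re) with hτ
    have hτ0 : 0 ≤ τ := div_nonneg (by linarith) hd.le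
    have hτ1 : τ ≤ 1 := by rw [hτ, div_le_one hd]; linarith
    set m : ℂ := z + (τ:ℂ) * (w - z) with hm
    have hmre : m.re = 0 := by
      rw [hm]
      simp only [Complex.add_re, Complex.mul_re, Complex.ofReal_re, Complex.ofReal_im,
        Complex.sub_re, Complex.sub_im, zero_mul, sub_zero]
      rw [hτ]; field_simp; ring
    have hmim : 0 ≤ m.im := by
      rw [hm]
      simp only [Complex.add_im, Complex.mul_im, Complex.ofReal_re, Complex.ofReal_im,
        Complex.sub_re, Complex.sub_im, zero_mul, add_zero]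
      nlinarith
    have h1 : ‖Phi lam z - Phi lam m‖ ≤ ‖z - m‖ := Phi_dist_left lam hl z m hz.le hmre.le
    have h2 : ‖Phi lam m - Phi lam w‖ ≤ ‖m - w‖ := by
      rw [Phi_eq_polC lam m hmre.ge hmim, Phi_eq_polC lam w hw.le hw']
      exact polC_dist lam hl m w hmre.ge hmim hw.le hw'
    have h3 : ‖z - m‖ = τ * ‖z - w‖ := by
      have : z - m = (τ:ℂ) * (z - w) := by rw [hm]; ring
      rw [this, norm_mul, Complex.norm_real, Real.norm_of_nonneg hτ0]
    have h4 : ‖m - w‖ = (1 - τ) * ‖z - w‖ := by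
      have : m - w = ((1 - τ : ℝ):ℂ) * (z - w) := by rw [hm]; push_cast; ring
      rw [this, norm_mul, Complex.norm_real, Real.norm_of_nonneg (by linarith)]
    calc ‖Phi lam z - Phi lam w‖ = ‖(Phi lam z - Phi lam m) + (Phi lam m - Phi lam w)‖ := by
          congr 1; ring
      _ ≤ ‖Phi lam z - Phi lam m‖ + ‖Phi lam m - Phi lam w‖ := norm_add_le _ _
      _ ≤ τ * ‖z - w‖ + (1 - τ) * ‖z - w‖ := by rw [← h3, ← h4]; exact add_le_add h1 h2
      _ = ‖z - w‖ := by ring
  rcases le_or_gt z.re 0 with hz | hz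
  · rcases le_or_gt w.re 0 with hw | hw
    · exact Phi_dist_left lam hl z w hz hw
    · rcases eq_or_lt_of_le hz with hz0 | hz0
      · rw [Phi_eq_polC lam z hz0.ge hz', Phi_eq_polC lam w hw.le hw']
        exact polC_dist lam hl z w hz0.ge hz' hw.le hw'
      · exact cross z w hz' hw' hz0 hw
  · rcases le_or_gt w.re 0 with hw | hw
    · rcases eq_or_lt_of_le hw with hw0 | hw0
      · rw [Phi_eq_polC lam z hz.le hz', Phi_eq_polC lam w hw0.ge hw']
        exact polC_dist lam hl z w hz.le hz' hw0.ge hw'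
      · rw [norm_sub_rev, norm_sub_rev z w]
        exact cross w z hw' hz' hw0 hz
    · rw [Phi_eq_polC lam z hz.le hz', Phi_eq_polC lam w hw.le hw']
      exact polC_dist lam hl z w hz.le hz' hw.le hw'

theorem fold_dist (X : ℝ) (z w : ℂ) : ‖fold X z - fold X w‖ ≤ ‖z - w‖ := by
  rw [← sq_le_sq₀ (norm_nonneg _) (norm_nonneg _), ← Complex.normSq_eq_norm_sq,
    ← Complex.normSq_eq_norm_sq, Complex.normSq_apply, Complex.normSq_apply]
  simp only [fold, Complex.sub_re, Complex.sub_im]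
  have h1 : (|z.re + X| - X - (|w.re + X| - X)) * (|z.re + X| - X - (|w.re + X| - X)) ≤
      (z.re - w.re) * (z.re - w.re) := by
    have h := abs_abs_sub_abs_le (z.re + X) (w.re + X)
    have h' := sq_le_sq' (neg_le_of_abs_le (a := |z.re + X| - |w.re + X|) h) (le_of_abs_le h)
    have e1 : z.re + X - (w.re + X) = z.re - w.re := by ring
    rw [e1, sq_abs] at h'
    nlinarith
  have h2 : (|z.im| - |w.im|) * (|z.im| - |w.im|) ≤ (z.im - w.im) * (z.im - w.im) := by
    have h := abs_abs_sub_abs_le z.im w.im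
    have h' := sq_le_sq' (neg_le_of_abs_le (a := |z.im| - |w.im|) h) (le_of_abs_le h)
    rw [sq_abs] at h'
    nlinarith
  linarith

theorem Psi_lipschitz (lam X : ℝ) (hl : 1 ≤ lam) : LipschitzWith 1 (Psi lam X) := by
  apply LipschitzWith.mk_one
  intro z w
  rw [dist_eq_norm, dist_eq_norm]
  exact (Phi_dist lam hl _ _ (abs_nonneg _) (abs_nonneg _)).trans (fold_dist X z w)

theorem norm_polC (lam : ℝ) (z : ℂ) : ‖polC lam z‖ = ‖z‖ := by
  unfold polC
  rw [norm_mul, Complex.norm_exp_ofReal_mul_I, mul_one]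
  simp

theorem Psi_growth (lam X : ℝ) (hX : 0 ≤ X) (z : ℂ) : ‖z‖ ≤ ‖Psi lam X z‖ + 3 * X := by
  have h1 : ‖z‖ ≤ ‖fold X z‖ + 2 * X := by
    have hb : ‖z‖ ≤ ‖(⟨|z.re + X| - X, |z.im|⟩ : ℂ)‖ + 2 * X := by
      have e0 : ‖z‖ = ‖(⟨|z.re|, |z.im|⟩ : ℂ)‖ := by
        rw [Complex.norm_eq_sqrt_sq_add_sq, Complex.norm_eq_sqrt_sq_add_sq]
        simp
      rw [e0]
      have e1 : (⟨|z.re|, |z.im|⟩ : ℂ) = ⟨|z.re + X| - X, |z.im|⟩ + ((|z.re| - (|z.re + X| - X) : ℝ):ℂ) := by
        apply Complex.ext <;> simp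
      rw [e1]
      refine (norm_add_le _ _).trans ?_
      gcongr
      rw [Complex.norm_real, Real.norm_eq_abs, abs_le]
      constructor
      · have := abs_add_le z.re X
        rw [abs_of_nonneg hX] at this
        linarith
      · have h3 : |z.re| ≤ |z.re + X| + X := by
          have := abs_sub (z.re + X) X
          rw [abs_of_nonneg hX] at this
          simpa using this
        linarith
    exact hb
  have h2 : ‖fold X z‖ ≤ ‖Phi lam (fold X z)‖ + X := by
    set y := fold X z with hy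
    unfold Phi
    split_ifs with h
    · have hre : -X ≤ y.re := by
        rw [hy]; simp [fold]
      have e1 : y = ((y.re : ℝ) : ℂ) + (y.im : ℂ) * Complex.I := (Complex.re_add_im y).symm
      have h5 : ‖y‖ ≤ |y.re| + |y.im| := Complex.norm_le_abs_re_add_abs_im y
      have h6 : |y.re| ≤ X := by rw [abs_le]; constructor <;> linarith
      have h7 : |y.im| ≤ ‖(⟨y.re / lam, y.im⟩ : ℂ)‖ := Complex.abs_im_le_norm (⟨y.re / lam, y.im⟩ : ℂ)
      linarith
    · rw [norm_polC]; linarith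
  unfold Psi
  linarith

theorem Psi_seg (lam X : ℝ) (hl : 1 ≤ lam) (hX : 0 ≤ X) (x : ℝ) (h1 : -(2*X) ≤ x) (h2 : x ≤ 0) :
    ∃ s : ℝ, -(X/lam) ≤ s ∧ s ≤ 0 ∧ Psi lam X (x:ℂ) = (s:ℂ) := by
  have hlp : 0 < lam := by linarith
  have hre : (fold X (x:ℂ)).re = |x + X| - X := by simp [fold]
  have him : (fold X (x:ℂ)).im = 0 := by simp [fold]
  have hab : |x + X| ≤ X := by rw [abs_le]; constructor <;> linarith
  refine ⟨(|x + X| - X)/lam, ?_, ?_, ?_⟩
  · rw [← neg_div]
    apply div_le_div_of_nonneg_right _ hlp.le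
    have := abs_nonneg (x + X)
    linarith
  · apply div_nonpos_of_nonpos_of_nonneg _ hlp.le
    linarith
  · unfold Psi Phi
    rw [if_pos (by rw [hre]; linarith), hre, him]
    rfl

end Pool.Agent.PCap704
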