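import Pool.Agent.PCap704.Tri3

set_option autoImplicit false
open MeasureTheory Set Metric Filter
open scoped ENNReal NNReal Topology ComplexConjugate EuclideanGeometry

namespace Pool.Agent.PCap704

theorem long1 (b c β : ℝ) (hb0 : 0 < b) (hb : b ≤ 0.94 * Real.pi) (hc0 : 0 < c) (hβ : 0 < β)
    (h : c + β < Real.pi/2)
    (hlc : (2*Real.pi - b - c)^2 = b^2 + c^2 - 2*b*c*Real.cos β) : False := by
  have hpi := Real.pi_pos
  have hp1 := Real.pi_gt_d4
  have hp2 := Real.pi_lt_d4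
  have hcos := Real.one_sub_sq_div_two_le_cos (x := β)
  have hcos1 := Real.cos_le_one β
  have e1 : b * (2*Real.pi - c*(1 + Real.cos β)) = 2*Real.pi*(Real.pi - c) := by nlinarith [hlc]
  have hpos : 0 < 2*Real.pi - c*(1 + Real.cos β) := by nlinarith
  have e2 : 2*Real.pi*(Real.pi - c) ≤ 0.94 * Real.pi * (2*Real.pi - c*(1 + Real.cos β)) := by
    rw [← e1]; exact mul_le_mul_of_nonneg_right hb hpos.le
  have e3 : 2*(Real.pi - c) ≤ 0.94 * (2*Real.pi - c*(1 + Real.cos β)) := by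
    have : Real.pi * (2*(Real.pi - c)) ≤ Real.pi * (0.94 * (2*Real.pi - c*(1 + Real.cos β))) := by
      linarith
    exact le_of_mul_le_mul_left this hpi
  have e4 : 0.12 * Real.pi ≤ c * (1.06 - 0.94 * Real.cos β) := by linarith
  have e5 : c * (1.06 - 0.94 * Real.cos β) ≤ c * (0.12 + 0.47 * β^2) := by
    apply mul_le_mul_of_nonneg_left _ hc0.le
    linarith
  have e6 : c * (0.12 + 0.47 * β^2) ≤ (1.5708 - β) * (0.12 + 0.47 * β^2) := by
    apply mul_le_mul_of_nonneg_right _ (by positivity)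
    linarith
  have e7 : (1.5708 - β) * (0.12 + 0.47 * β^2) < 0.12 * 3.1415 := by
    nlinarith [mul_nonneg (add_nonneg hβ.le (by norm_num : (0:ℝ) ≤ 0.346)) (sq_nonneg (β - 0.9584))]
  linarith

theorem poly1 (y : ℝ) (h1 : y ≤ 1) : 0 < 0.59214 - 2.509*y + 3.21475*y^2 - 0.75*y^3 := by
  have : 0.59214 - 2.509*y + 3.21475*y^2 - 0.75*y^3 =
    (y - 0.4663)^2 * (2.5153 - 0.75*y) + (0.59214 - 0.4663^2*2.5153) +
      (-2.509 + 2*0.4663*2.5153 + 0.75*0.4663^2) * y +
      (3.21475 - 2.5153 - 2*0.4663*0.75) * y^2 := by ring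
  rw [this]
  have h2 : 0 ≤ (y - 0.4663)^2 * (2.5153 - 0.75*y) := mul_nonneg (sq_nonneg _) (by linarith)
  norm_num at h2 ⊢
  nlinarith [sq_nonneg y]

theorem poly2 (y : ℝ) (h1 : 1 ≤ y) (h2 : y ≤ 1.5708) :
    0 < 0.59214 - 2.5762*y + 2.8798*y^2 - 0.6366*y^3 := by
  nlinarith [mul_nonneg (mul_nonneg (sub_nonneg.2 h1) (sub_nonneg.2 h2)) (by linarith : (0:ℝ) ≤ y),
      mul_nonneg (sub_nonneg.2 h1) (sub_nonneg.2 h2), sq_nonneg (y-1)]

theorem pisq : 9.869 ≤ Real.pi^2 := by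
  have := pow_le_pow_left₀ (by norm_num : (0:ℝ) ≤ 3.1415) Real.pi_gt_d4.le 2
  norm_num at this ⊢
  linarith

theorem long2 (a b c β : ℝ) (ha1 : a < Real.pi) (hc0 : 0 < c)
    (hb : b ≤ 0.94 * Real.pi) (hsum : a + b + c = 2*Real.pi) (hβ1 : β < Real.pi)
    (h : 3*Real.pi/2 < a + β)
    (hlc : b^2 = a^2 + c^2 - 2*a*c*Real.cos β) : False := by
  have hpi := Real.pi_pos
  have hp1 := Real.pi_gt_d4
  have hp2 := Real.pi_lt_d4
  set y := Real.pi - a with hy
  have ha : a = Real.pi - y := by rw [hy]; ring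
  have hy0 : 0 < y := by rw [hy]; linarith
  have hy1 : y < Real.pi/2 := by rw [hy]; linarith
  have hcos : Real.cos β ≤ -Real.sin y := by
    have : Real.cos β ≤ Real.cos (y + Real.pi/2) := by
      apply Real.cos_le_cos_of_nonneg_of_le_pi (by linarith) hβ1.le
      rw [hy]; linarith
    rw [Real.cos_add_pi_div_two] at this
    exact this
  have hbb : b = 2*Real.pi - a - c := by linarith
  have e1 : c * (2*Real.pi - a*(1 + Real.cos β)) = 2*Real.pi*(Real.pi - a) := by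
    rw [hbb] at hlc; nlinarith [hlc]
  have hcb : 0.06 * Real.pi + y ≤ c := by rw [hy]; linarith
  have hsy0 : 0 ≤ Real.sin y := Real.sin_nonneg_of_nonneg_of_le_pi hy0.le (by linarith)
  have e2 : 2*Real.pi - (Real.pi - y)*(1 - Real.sin y) ≤ 2*Real.pi - a*(1 + Real.cos β) := by
    rw [ha]
    have : (Real.pi - y)*(1 + Real.cos β) ≤ (Real.pi - y)*(1 - Real.sin y) :=
      mul_le_mul_of_nonneg_left (by linarith) (by linarith)
    linarith
  have hs1 := Real.sin_le_one y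
  have e3 : 0 ≤ 2*Real.pi - (Real.pi - y)*(1 - Real.sin y) := by nlinarith
  have e4 : (0.06 * Real.pi + y) * (2*Real.pi - (Real.pi - y)*(1 - Real.sin y)) ≤ 2*Real.pi*y := by
    calc _ ≤ c * (2*Real.pi - a*(1 + Real.cos β)) := mul_le_mul hcb e2 e3 hc0.le
      _ = _ := by rw [e1]
  have hpy : 0 ≤ Real.pi - y := by linarith
  rcases le_or_gt y 1 with hy2 | hy2
  · have hs : 0.75 * y ≤ Real.sin y := by
      have h1 := Real.sin_gt_sub_cube hy0
      have h2 : y^3 ≤ y := by nlinarith [mul_nonneg hy0.le (sub_nonneg.2 hy2), sq_nonneg y]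
      linarith
    have e5 : (0.06 * Real.pi + y) * (2*Real.pi - (Real.pi - y)*(1 - 0.75*y)) ≤ 2*Real.pi*y := by
      refine le_trans ?_ e4
      apply mul_le_mul_of_nonneg_left _ (by positivity)
      have : (Real.pi - y)*(1 - Real.sin y) ≤ (Real.pi - y)*(1 - 0.75*y) :=
        mul_le_mul_of_nonneg_left (by linarith) hpy
      linarith
    have e6 : 0.06 * Real.pi^2 + y*(-0.94*Real.pi + 0.045*Real.pi^2) + y^2*(1 + 0.705*Real.pi)
        - 0.75*y^3 ≤ 0 := by
      have : 0.06 * Real.pi^2 + y*(-0.94*Real.pi + 0.045*Real.pi^2) + y^2*(1 + 0.705*Real.pi)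
        - 0.75*y^3 = (0.06 * Real.pi + y) * (2*Real.pi - (Real.pi - y)*(1 - 0.75*y)) - 2*Real.pi*y := by
        ring
      rw [this]; linarith
    have q1 := pisq
    have e7 : 0.59214 - 2.509*y + 3.21475*y^2 - 0.75*y^3 ≤ 0 := by
      have t1 : y * (-2.509) ≤ y*(-0.94*Real.pi + 0.045*Real.pi^2) :=
        mul_le_mul_of_nonneg_left (by linarith) hy0.le
      have t2 : y^2 * 3.21475 ≤ y^2*(1 + 0.705*Real.pi) :=
        mul_le_mul_of_nonneg_left (by linarith) (sq_nonneg y)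
      linarith
    exact absurd e7 (not_le.2 (poly1 y hy2))
  · have hs : 2/Real.pi * y ≤ Real.sin y := Real.mul_le_sin hy0.le hy1.le
    have h63 : 0.6366 ≤ 2/Real.pi := by
      rw [le_div_iff₀ hpi]; linarith
    have hs' : 0.6366 * y ≤ Real.sin y := by
      have := mul_le_mul_of_nonneg_right h63 hy0.le
      linarith
    have e5 : (0.06 * Real.pi + y) * (2*Real.pi - (Real.pi - y)*(1 - 0.6366*y)) ≤ 2*Real.pi*y := by
      refine le_trans ?_ e4
      apply mul_le_mul_of_nonneg_left _ (by positivity)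
      have : (Real.pi - y)*(1 - Real.sin y) ≤ (Real.pi - y)*(1 - 0.6366*y) :=
        mul_le_mul_of_nonneg_left (by linarith) hpy
      linarith
    -- polynomial in π and y
    have e6 : 0.06 * Real.pi^2 + y*(-0.94*Real.pi + 0.038196*Real.pi^2)
        + y^2*(1 + 0.598404*Real.pi) - 0.6366*y^3 ≤ 0 := by
      have : 0.06 * Real.pi^2 + y*(-0.94*Real.pi + 0.038196*Real.pi^2)
        + y^2*(1 + 0.598404*Real.pi) - 0.6366*y^3 =
        (0.06 * Real.pi + y) * (2*Real.pi - (Real.pi - y)*(1 - 0.6366*y)) - 2*Real.pi*y := by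
        ring
      rw [this]; linarith
    have q1 := pisq
    have e7 : 0.59214 - 2.5762*y + 2.8798*y^2 - 0.6366*y^3 ≤ 0 := by
      have t1 : y * (-2.5762) ≤ y*(-0.94*Real.pi + 0.038196*Real.pi^2) :=
        mul_le_mul_of_nonneg_left (by linarith) hy0.le
      have t2 : y^2 * 2.8798 ≤ y^2*(1 + 0.598404*Real.pi) :=
        mul_le_mul_of_nonneg_left (by linarith) (sq_nonneg y)
      linarith
    have hy3 : y ≤ 1.5708 := by linarith
    exact absurd e7 (not_le.2 (poly2 y hy2.le hy3))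

end Pool.Agent.PCap704
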