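import Mathlib

set_option autoImplicit false
open MeasureTheory Set Metric Filter
open scoped ENNReal NNReal Topology Convolution

namespace Pool.Agent.PCap704

/-- The `p`-capacity of a subset `K` of the plane `ℂ = ℝ²`. -/
noncomputable def cap (p : ℝ) (K : Set ℂ) : ℝ :=
  sInf {c : ℝ | ∃ u : ℂ → ℝ, ContDiff ℝ 1 u ∧ HasCompactSupport u ∧
    (∃ U : Set ℂ, IsOpen U ∧ K ⊆ U ∧ ∀ x ∈ U, 1 ≤ u x) ∧
    c = ∫ z : ℂ, ‖fderiv ℝ u z‖ ^ p}

theorem cap_bddBelow (p : ℝ) (K : Set ℂ) :
    BddBelow {c : ℝ | ∃ u : ℂ → ℝ, ContDiff ℝ 1 u ∧ HasCompactSupport u ∧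
    (∃ U : Set ℂ, IsOpen U ∧ K ⊆ U ∧ ∀ x ∈ U, 1 ≤ u x) ∧
    c = ∫ z : ℂ, ‖fderiv ℝ u z‖ ^ p} := by
  refine ⟨0, ?_⟩
  rintro c ⟨u, -, -, -, rfl⟩
  exact integral_nonneg fun z => Real.rpow_nonneg (norm_nonneg _) _

theorem cap_nonneg (p : ℝ) (K : Set ℂ) : 0 ≤ cap p K := by
  apply Real.sInf_nonneg
  rintro c ⟨u, -, -, -, rfl⟩
  exact integral_nonneg fun z => Real.rpow_nonneg (norm_nonneg _) _

/-- mollification step -/
theorem exists_mollified (u : ℂ → ℝ) (hu : ContDiff ℝ 1 u) (huc : HasCompactSupport u)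
    (Ψ : ℂ → ℂ) (hΨ : LipschitzWith 1 Ψ) (S : Set ℂ) (hS : IsCompact S)
    (U : Set ℂ) (hU : IsOpen U) (hSU : ∀ z ∈ S, Ψ z ∈ U) (hu1 : ∀ x ∈ U, 1 ≤ u x)
    (R : ℝ) (hR : ∀ z : ℂ, R < ‖z‖ → u (Ψ z) = 0) (ε : ℝ) (hε : 0 < ε) :
    ∃ w : ℂ → ℝ, ContDiff ℝ 1 w ∧ HasCompactSupport w ∧
      (∃ V : Set ℂ, IsOpen V ∧ S ⊆ V ∧ ∀ x ∈ V, 1 ≤ w x) ∧
      (∀ z, ‖fderiv ℝ w z‖ ≤ ‖fderiv ℝ u (Ψ z)‖ + ε) ∧
      (∀ z : ℂ, R + 1 < ‖z‖ → fderiv ℝ w z = 0) := by
  -- uniform continuity of the derivative
  have hDc : HasCompactSupport (fderiv ℝ u) := huc.fderiv (𝕜 := ℝ)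
  have hDcont : Continuous (fderiv ℝ u) := hu.continuous_fderiv one_ne_zero
  have hUC : UniformContinuous (fderiv ℝ u) :=
    hDc.uniformContinuous_of_continuous hDcont
  obtain ⟨η, hη, hηu⟩ := Metric.uniformContinuous_iff.1 hUC ε hε
  -- thickening
  have hO : IsOpen (Ψ ⁻¹' U) := hU.preimage hΨ.continuous
  obtain ⟨δ, hδ, hδO⟩ := hS.exists_thickening_subset_open hO (fun z hz => hSU z hz)
  set ρ : ℝ := min (min (η / 2) (δ / 2)) 1 with hρ
  have hρ0 : 0 < ρ := by rw [hρ]; positivity
  have hρη : ρ ≤ η / 2 := (min_le_left _ _).trans (min_le_left _ _)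
  have hρδ : ρ ≤ δ / 2 := (min_le_left _ _).trans (min_le_right _ _)
  have hρ1 : ρ ≤ 1 := min_le_right _ _
  let φ : ContDiffBump (0 : ℂ) := ⟨ρ / 2, ρ, by positivity, by linarith⟩
  set v : ℂ → ℝ := fun z => u (Ψ z) with hv
  have hvc : Continuous v := hu.continuous.comp hΨ.continuous
  have hvcs : HasCompactSupport v := by
    refine HasCompactSupport.intro (isCompact_closedBall (0:ℂ) R) ?_
    intro z hz
    apply hR
    simpa using hz
  set w : ℂ → ℝ := (φ.normed volume) ⋆[ContinuousLinearMap.lsmul ℝ ℝ, volume] v with hw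
  have hwdef : ∀ x, w x = ∫ t, φ.normed volume t * v (x - t) := by
    intro x
    rw [hw, convolution_def]
    simp [ContinuousLinearMap.lsmul_apply]
  have hint : ∀ x, Integrable (fun t => φ.normed volume t * v (x - t)) := by
    intro x
    apply Continuous.integrable_of_hasCompactSupport
    · exact φ.continuous_normed.mul (hvc.comp (continuous_const.sub continuous_id))
    · exact φ.hasCompactSupport_normed.mul_right
  have hwsm : ContDiff ℝ 1 w :=
    φ.hasCompactSupport_normed.contDiff_convolution_left _ (φ.contDiff_normed (n := 1))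
      hvc.locallyIntegrable
  have hw0 : ∀ z : ℂ, R + 1 < ‖z‖ → w z = 0 := by
    intro z hz
    rw [hwdef]
    apply integral_eq_zero_of_ae
    filter_upwards with t
    by_cases ht : t ∈ ball (0:ℂ) ρ
    · have : v (z - t) = 0 := by
        apply hR
        have h1 : ‖t‖ < ρ := by simpa using ht
        have h2 : ‖z‖ - ‖t‖ ≤ ‖z - t‖ := norm_sub_norm_le z t
        linarith
      simp [this]
    · have : φ.normed volume t = 0 := by
        have h3 : t ∉ Function.support (φ.normed volume) := by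
          rw [φ.support_normed_eq]; exact ht
        simpa using h3
      simp [this]
  refine ⟨w, hwsm, ?_, ?_, ?_, ?_⟩
  · refine HasCompactSupport.intro (isCompact_closedBall (0:ℂ) (R+1)) ?_
    intro z hz
    apply hw0
    simpa using hz
  · refine ⟨thickening (δ/2) S, isOpen_thickening, self_subset_thickening (by positivity) S, ?_⟩
    intro x hx
    rw [hwdef]
    have h1 : (1:ℝ) = ∫ t, φ.normed volume t * 1 := by
      simp [φ.integral_normed]
    rw [h1]
    apply integral_mono
    · simpa using (φ.integrable_normed (μ := volume))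
    · exact hint x
    · intro t
      by_cases ht : t ∈ ball (0:ℂ) ρ
      · apply mul_le_mul_of_nonneg_left _ (φ.nonneg_normed t)
        apply hu1
        apply hδO
        rw [mem_thickening_iff] at hx ⊢
        obtain ⟨s, hs, hxs⟩ := hx
        refine ⟨s, hs, ?_⟩
        have h1 : ‖t‖ < ρ := by simpa using ht
        calc dist (x - t) s ≤ dist (x - t) x + dist x s := dist_triangle _ _ _
          _ < δ/2 + δ/2 := by
              have : dist (x - t) x = ‖t‖ := by simp [dist_eq_norm]
              rw [this]; linarith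
          _ = δ := by ring
      · have : φ.normed volume t = 0 := by
          have h3 : t ∉ Function.support (φ.normed volume) := by
            rw [φ.support_normed_eq]; exact ht
          simpa using h3
        simp [this]
  · intro x
    have hC : 0 ≤ ‖fderiv ℝ u (Ψ x)‖ + ε := by positivity
    apply norm_fderiv_le_of_lip' ℝ hC
    have hnb : ∀ᶠ y in 𝓝 x, dist y x < η/2 := Metric.eventually_nhds_iff.2 ⟨η/2, by positivity, fun y hy => hy⟩
    filter_upwards [hnb] with y hy
    rw [hwdef, hwdef, ← integral_sub (hint y) (hint x)]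
    have hbd : ∀ t, ‖φ.normed volume t * v (y - t) - φ.normed volume t * v (x - t)‖ ≤
        φ.normed volume t * ((‖fderiv ℝ u (Ψ x)‖ + ε) * ‖y - x‖) := by
      intro t
      rw [← mul_sub, norm_mul, Real.norm_of_nonneg (φ.nonneg_normed t)]
      by_cases ht : t ∈ ball (0:ℂ) ρ
      · apply mul_le_mul_of_nonneg_left _ (φ.nonneg_normed t)
        have h1 : ‖t‖ < ρ := by simpa using ht
        have hyb : Ψ (y - t) ∈ ball (Ψ x) η := by
          rw [mem_ball]
          calc dist (Ψ (y - t)) (Ψ x) ≤ dist (y - t) x := by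
                simpa using hΨ.dist_le_mul (y - t) x
            _ ≤ dist (y - t) y + dist y x := dist_triangle _ _ _
            _ < η/2 + η/2 := by
                have : dist (y - t) y = ‖t‖ := by simp [dist_eq_norm]
                rw [this]; linarith
            _ = η := by ring
        have hxb : Ψ (x - t) ∈ ball (Ψ x) η := by
          rw [mem_ball]
          calc dist (Ψ (x - t)) (Ψ x) ≤ dist (x - t) x := by
                simpa using hΨ.dist_le_mul (x - t) x
            _ = ‖t‖ := by simp [dist_eq_norm]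
            _ < η := by linarith
        have hmv := (convex_ball (Ψ x) η).norm_image_sub_le_of_norm_fderiv_le (𝕜 := ℝ) (f := u)
          (C := ‖fderiv ℝ u (Ψ x)‖ + ε)
          (fun z _ => (hu.differentiable one_ne_zero) z)
          (fun z hz => by
            have h5 : dist (fderiv ℝ u z) (fderiv ℝ u (Ψ x)) < ε := hηu (by simpa using hz)
            have h6 : ‖fderiv ℝ u z‖ ≤ ‖fderiv ℝ u (Ψ x)‖ + ‖fderiv ℝ u z - fderiv ℝ u (Ψ x)‖ := by
              have := norm_add_le (fderiv ℝ u (Ψ x)) (fderiv ℝ u z - fderiv ℝ u (Ψ x))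
              simpa using this
            rw [dist_eq_norm] at h5
            linarith)
          hxb hyb
        calc ‖v (y - t) - v (x - t)‖ ≤ (‖fderiv ℝ u (Ψ x)‖ + ε) * ‖Ψ (y - t) - Ψ (x - t)‖ := hmv
          _ ≤ (‖fderiv ℝ u (Ψ x)‖ + ε) * ‖y - x‖ := by
              apply mul_le_mul_of_nonneg_left _ hC
              have := hΨ.dist_le_mul (y - t) (x - t)
              rw [dist_eq_norm, dist_eq_norm] at this
              simpa using this
      · have : φ.normed volume t = 0 := by
          have h3 : t ∉ Function.support (φ.normed volume) := by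
            rw [φ.support_normed_eq]; exact ht
          simpa using h3
        simp [this]
    calc ‖∫ t, (φ.normed volume t * v (y - t) - φ.normed volume t * v (x - t))‖
        ≤ ∫ t, φ.normed volume t * ((‖fderiv ℝ u (Ψ x)‖ + ε) * ‖y - x‖) := by
          apply norm_integral_le_of_norm_le
          · exact (φ.integrable_normed (μ := volume)).mul_const _
          · exact Filter.Eventually.of_forall hbd
      _ = (‖fderiv ℝ u (Ψ x)‖ + ε) * ‖y - x‖ := by
          rw [integral_mul_const, φ.integral_normed, one_mul]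
  · intro z hz
    have hev : ∀ᶠ y in 𝓝 z, w y = 0 := by
      have : IsOpen {y : ℂ | R + 1 < ‖y‖} := isOpen_lt continuous_const continuous_norm
      filter_upwards [this.mem_nhds hz] with y hy
      exact hw0 y hy
    have : w =ᶠ[𝓝 z] fun _ => (0:ℝ) := hev
    rw [this.fderiv_eq]
    simp

/-- **Transplantation lemma.**  If `Ψ` is a `1`-Lipschitz proper map sending the compact set `S`
into the set where `u ≥ 1` near, the capacity of `S` is at most `∫ ‖Du (Ψ z)‖ ^ p dz`. -/
theorem cap_le_transplant (p : ℝ) (hp : 0 < p) (u : ℂ → ℝ) (hu : ContDiff ℝ 1 u)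
    (huc : HasCompactSupport u)
    (Ψ : ℂ → ℂ) (hΨ : LipschitzWith 1 Ψ) (S : Set ℂ) (hS : IsCompact S)
    (U : Set ℂ) (hU : IsOpen U) (hSU : ∀ z ∈ S, Ψ z ∈ U) (hu1 : ∀ x ∈ U, 1 ≤ u x)
    (C : ℝ) (hC : ∀ z : ℂ, ‖z‖ ≤ ‖Ψ z‖ + C) :
    cap p S ≤ ∫ z : ℂ, ‖fderiv ℝ u (Ψ z)‖ ^ p := by
  have hDc : HasCompactSupport (fderiv ℝ u) := huc.fderiv (𝕜 := ℝ)
  have hDcont : Continuous (fderiv ℝ u) := hu.continuous_fderiv one_ne_zero
  -- radius of support
  obtain ⟨M, hM⟩ := (huc.isCompact.isBounded).subset_closedBall (0:ℂ)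
  have huM : ∀ x : ℂ, M < ‖x‖ → u x = 0 := by
    intro x hx
    apply image_eq_zero_of_notMem_tsupport
    intro h
    have := hM h
    rw [mem_closedBall, dist_zero_right] at this
    linarith
  have hDM : ∀ x : ℂ, M < ‖x‖ → fderiv ℝ u x = 0 := by
    intro x hx
    have : IsOpen {y : ℂ | M < ‖y‖} := isOpen_lt continuous_const continuous_norm
    have hev : u =ᶠ[𝓝 x] fun _ => (0:ℝ) := by
      filter_upwards [this.mem_nhds hx] with y hy
      exact huM y hy
    rw [hev.fderiv_eq]; simp
  set R : ℝ := M + C with hRdef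
  have hR : ∀ z : ℂ, R < ‖z‖ → u (Ψ z) = 0 := by
    intro z hz
    apply huM
    have := hC z
    linarith
  have hRD : ∀ z : ℂ, R < ‖z‖ → fderiv ℝ u (Ψ z) = 0 := by
    intro z hz
    apply hDM
    have := hC z
    linarith
  -- the bound for every ε
  have key : ∀ n : ℕ, cap p S ≤ ∫ z in closedBall (0:ℂ) (R+1),
      (‖fderiv ℝ u (Ψ z)‖ + 1 / ((n:ℝ)+1)) ^ p := by
    intro n
    have hε : (0:ℝ) < 1 / ((n:ℝ)+1) := by positivity
    obtain ⟨w, hw, hwc, hwV, hwD, hwz⟩ := exists_mollified u hu huc Ψ hΨ S hS U hU hSU hu1 R hR _ hε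
    have h1 : cap p S ≤ ∫ z : ℂ, ‖fderiv ℝ w z‖ ^ p :=
      csInf_le (cap_bddBelow p S) ⟨w, hw, hwc, hwV, rfl⟩
    refine h1.trans ?_
    have h2 : ∫ z : ℂ, ‖fderiv ℝ w z‖ ^ p = ∫ z in closedBall (0:ℂ) (R+1), ‖fderiv ℝ w z‖ ^ p := by
      symm
      apply setIntegral_eq_integral_of_forall_compl_eq_zero
      intro z hz
      have : fderiv ℝ w z = 0 := by
        apply hwz
        simpa using hz
      rw [this]; simp [Real.zero_rpow hp.ne']
    rw [h2]
    apply setIntegral_mono_on
    · apply ContinuousOn.integrableOn_compact (isCompact_closedBall _ _)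
      apply Continuous.continuousOn
      exact ((hw.continuous_fderiv one_ne_zero).norm).rpow_const (fun x => Or.inr hp.le)
    · apply ContinuousOn.integrableOn_compact (isCompact_closedBall _ _)
      apply Continuous.continuousOn
      exact (((hDcont.comp hΨ.continuous).norm).add continuous_const).rpow_const (fun x => Or.inr hp.le)
    · exact isClosed_closedBall.measurableSet
    · intro z _
      exact Real.rpow_le_rpow (norm_nonneg _) (hwD z) hp.le
  -- limit
  obtain ⟨B, hB⟩ := hDcont.bounded_above_of_compact_support hDc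
  have hlim : Tendsto (fun n : ℕ => ∫ z in closedBall (0:ℂ) (R+1),
      (‖fderiv ℝ u (Ψ z)‖ + 1 / ((n:ℝ)+1)) ^ p) atTop
      (𝓝 (∫ z in closedBall (0:ℂ) (R+1), (‖fderiv ℝ u (Ψ z)‖) ^ p)) := by
    apply tendsto_integral_of_dominated_convergence (fun _ => (B + 1) ^ p)
    · intro n
      apply Continuous.aestronglyMeasurable
      exact (((hDcont.comp hΨ.continuous).norm).add continuous_const).rpow_const (fun x => Or.inr hp.le)
    · exact integrableOn_const (by exact (isCompact_closedBall (0:ℂ) (R+1)).measure_lt_top.ne)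
    · intro n
      filter_upwards with z
      rw [Real.norm_of_nonneg (by positivity)]
      apply Real.rpow_le_rpow (by positivity) _ hp.le
      have h1 : (1:ℝ) / ((n:ℝ)+1) ≤ 1 := by
        rw [div_le_one (by positivity)]
        have : (0:ℝ) ≤ n := Nat.cast_nonneg n
        linarith
      have := hB (Ψ z)
      linarith
    · filter_upwards with z
      have h1 : Tendsto (fun n : ℕ => ‖fderiv ℝ u (Ψ z)‖ + 1 / ((n:ℝ)+1)) atTop
          (𝓝 (‖fderiv ℝ u (Ψ z)‖ + 0)) :=
        tendsto_const_nhds.add tendsto_one_div_add_atTop_nhds_zero_nat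
      rw [add_zero] at h1
      exact h1.rpow_const (Or.inr hp.le)
  have hfin := ge_of_tendsto' hlim key
  refine hfin.trans (le_of_eq ?_)
  apply setIntegral_eq_integral_of_forall_compl_eq_zero
  intro z hz
  have : fderiv ℝ u (Ψ z) = 0 := by
    apply hRD
    have : R + 1 < ‖z‖ := by simpa using hz
    linarith
  rw [this]; simp [Real.zero_rpow hp.ne']

end Pool.Agent.PCap704
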