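import Pool.Agent.PCap704.Push2
import Pool.Agent.PCap704.Transplant

set_option autoImplicit false
open MeasureTheory Set Metric Filter
open scoped ENNReal NNReal Topology ComplexConjugate

namespace Pool.Agent.PCap704

/-- the (open) standard piece: half strip of width `x` and sector of angle `α`. -/
def piece (x α : ℝ) : Set ℂ := strip x ∪ asec (Real.pi/2 - α) (Real.pi/2)

theorem measurableSet_piece (x α : ℝ) : MeasurableSet (piece x α) :=
  (measurableSet_strip x).union (measurableSet_asec _ _)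

theorem strip_disjoint_asec (x α : ℝ) (hα1 : α ≤ Real.pi/2) :
    Disjoint (strip x) (asec (Real.pi/2 - α) (Real.pi/2)) := by
  rw [Set.disjoint_left]
  rintro z ⟨h1, h2, h3⟩ ⟨h4, h5, h6⟩
  have : |z.arg| ≤ Real.pi/2 := by
    rw [abs_le]; constructor <;> linarith [Real.pi_pos]
  have := Complex.abs_arg_le_pi_div_two_iff.1 this
  linarith

/-- energy of `u` on a set, as an extended real. -/
noncomputable def en (p : ℝ) (u : ℂ → ℝ) (A : Set ℂ) : ℝ≥0∞ :=
  ∫⁻ z in A, ENNReal.ofReal (‖fderiv ℝ u z‖ ^ p)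

theorem measurable_dens (p : ℝ) (hp : 0 < p) (u : ℂ → ℝ) (hu : ContDiff ℝ 1 u) :
    Measurable (fun z => ENNReal.ofReal (‖fderiv ℝ u z‖ ^ p)) := by
  apply ENNReal.measurable_ofReal.comp
  apply Continuous.measurable
  exact ((hu.continuous_fderiv one_ne_zero).norm).rpow_const (fun x => Or.inr hp.le)

theorem integrable_dens (p : ℝ) (hp : 0 < p) (u : ℂ → ℝ) (hu : ContDiff ℝ 1 u)
    (huc : HasCompactSupport u) : Integrable (fun z => ‖fderiv ℝ u z‖ ^ p) := by
  apply Continuous.integrable_of_hasCompactSupport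
  · exact ((hu.continuous_fderiv one_ne_zero).norm).rpow_const (fun x => Or.inr hp.le)
  · have h1 : HasCompactSupport (fderiv ℝ u) := huc.fderiv (𝕜 := ℝ)
    refine h1.comp_left (g := fun L : ℂ →L[ℝ] ℝ => ‖L‖ ^ p) ?_
    simp [Real.zero_rpow hp.ne']

theorem en_univ (p : ℝ) (hp : 0 < p) (u : ℂ → ℝ) (hu : ContDiff ℝ 1 u)
    (huc : HasCompactSupport u) : en p u univ = ENNReal.ofReal (∫ z, ‖fderiv ℝ u z‖ ^ p) := by
  unfold en
  rw [Measure.restrict_univ, ofReal_integral_eq_lintegral_ofReal (integrable_dens p hp u hu huc)]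
  exact Eventually.of_forall fun z => Real.rpow_nonneg (norm_nonneg _) _

/-- **Single piece estimate.** -/
theorem piece_bound (p : ℝ) (hp : 0 < p) (u : ℂ → ℝ) (hu : ContDiff ℝ 1 u)
    (huc : HasCompactSupport u) (U : Set ℂ) (hU : IsOpen U) (hu1 : ∀ x ∈ U, 1 ≤ u x)
    (ι κ : ℂ → ℂ) (hιl : LipschitzWith 1 ι) (hιg : ∃ C, ∀ z, ‖z‖ ≤ ‖ι z‖ + C)
    (hκmp : MeasurePreserving κ volume volume) (hκe : MeasurableEmbedding κ)
    (hικ : ∀ w, ι (κ w) = w)
    (x α μ : ℝ) (hμ : 0 < μ) (hα0 : 0 ≤ α) (hα1 : α ≤ Real.pi/2) (hx : x = μ * α)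
    (hseg : ∀ s : ℝ, -x ≤ s → s ≤ 0 → ι (s:ℂ) ∈ U)
    (a b : ℂ) (hab : dist a b = μ * Real.pi) :
    ENNReal.ofReal (α * cap p (segment ℝ a b)) ≤
      ENNReal.ofReal (2 * Real.pi) * en p u (κ ⁻¹' piece x α) := by
  have hpi := Real.pi_pos
  rcases eq_or_lt_of_le hα0 with h0 | hα
  · rw [← h0]; simp
  set lam : ℝ := (Real.pi/2)/α with hlam
  have hl : 1 ≤ lam := by rw [hlam, one_le_div hα]; exact hα1
  have hlp : 0 < lam := by linarith
  have hla : lam * α = Real.pi/2 := by rw [hlam]; field_simp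
  set X : ℝ := lam * x with hX
  have hx0 : 0 ≤ x := by rw [hx]; positivity
  have hX0 : 0 ≤ X := by rw [hX]; positivity
  have hXm : 2 * X = μ * Real.pi := by
    rw [hX, hx]
    calc 2 * (lam * (μ * α)) = 2 * μ * (lam * α) := by ring
      _ = _ := by rw [hla]; ring
  have hXl : X / lam = x := by rw [hX]; field_simp
  have hab0 : 0 < dist a b := by rw [hab]; positivity
  -- the isometry taking the segment to the standard one
  have hba : ‖b - a‖ = μ * Real.pi := by rw [← hab, dist_comm, dist_eq_norm]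
  have hba0 : 0 < ‖b - a‖ := by rw [hba]; positivity
  set c : ℂ := (starRingEnd ℂ) ((b - a) / (‖b - a‖ : ℂ)) with hc
  have hcn : ‖c‖ = 1 := by
    rw [hc, RCLike.norm_conj, norm_div, Complex.norm_real, norm_norm, div_self hba0.ne']
  set σ : ℂ → ℂ := fun z => c * z + (- (c * b)) with hσ
  have hσmp : MeasurePreserving σ volume volume := mp_iso _ _ hcn
  have hσe : MeasurableEmbedding σ := emb_iso _ _ hcn
  have hσl : LipschitzWith 1 σ := by
    apply LipschitzWith.mk_one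
    intro z w
    rw [dist_eq_norm, dist_eq_norm]
    have : σ z - σ w = c * (z - w) := by rw [hσ]; ring
    rw [this, norm_mul, hcn, one_mul]
  have hσg : ∀ z, ‖z‖ ≤ ‖σ z‖ + ‖b‖ := by
    intro z
    have h1 : c * z = σ z + c * b := by rw [hσ]; ring
    have h2 : ‖c * z‖ = ‖z‖ := by rw [norm_mul, hcn, one_mul]
    rw [← h2, h1]
    refine (norm_add_le _ _).trans ?_
    rw [norm_mul c b, hcn, one_mul]
  set Ψ : ℂ → ℂ := fun z => ι (Psi lam X (σ z)) with hΨ
  have hΨl : LipschitzWith 1 Ψ := by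
    have := hιl.comp ((Psi_lipschitz lam X hl).comp hσl)
    rw [mul_one, mul_one] at this
    exact this
  obtain ⟨C, hC⟩ := hιg
  have hΨg : ∀ z, ‖z‖ ≤ ‖Ψ z‖ + (C + 3 * X + ‖b‖) := by
    intro z
    have h1 := hσg z
    have h2 := Psi_growth lam X hX0 (σ z)
    have h3 := hC (Psi lam X (σ z))
    simp only [hΨ]
    linarith
  have hScomp : IsCompact (segment ℝ a b) := by
    rw [segment_eq_image_lineMap]
    exact isCompact_Icc.image (AffineMap.lineMap_continuous)
  have hSU : ∀ z ∈ segment ℝ a b, Ψ z ∈ U := by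
    intro z hz
    obtain ⟨θ, hθ, rfl⟩ := (segment_eq_image_lineMap ℝ a b ▸ hz :
      z ∈ (AffineMap.lineMap a b : ℝ → ℂ) '' Icc 0 1)
    have hσz : σ (AffineMap.lineMap a b θ) = (((θ - 1) * (μ * Real.pi) : ℝ) : ℂ) := by
      simp only [hσ, AffineMap.lineMap_apply, vsub_eq_sub, vadd_eq_add, Complex.real_smul]
      have h1 : c * (b - a) = ((μ * Real.pi : ℝ) : ℂ) := by
        rw [hc, map_div₀, Complex.conj_ofReal, div_mul_eq_mul_div]
        have h2 : (starRingEnd ℂ) (b - a) * (b - a) = ((‖b - a‖ ^ 2 : ℝ) : ℂ) := by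
          rw [mul_comm, Complex.mul_conj, Complex.normSq_eq_norm_sq]
        rw [h2, ← hba, ← Complex.ofReal_div]
        congr 1
        field_simp
      have h3 : c * ((θ:ℂ) * (b - a) + a) + -(c * b) = ((θ:ℂ) - 1) * (c * (b - a)) := by ring
      rw [h3, h1]
      push_cast
      ring
    simp only [hΨ]
    rw [hσz]
    obtain ⟨s, hs1, hs2, hs3⟩ := Psi_seg lam X hl hX0 ((θ - 1) * (μ * Real.pi))
      (by rw [hXm]; have := hθ.1; nlinarith [mul_pos hμ hpi])
      (by have := hθ.2; nlinarith [mul_pos hμ hpi])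
    rw [hs3]
    apply hseg s _ hs2
    rw [hXl] at hs1
    exact hs1
  have hmain := cap_le_transplant p hp u hu huc Ψ hΨl (segment ℝ a b) hScomp U hU hSU hu1 _ hΨg
  -- measure computation
  set g : ℂ → ℝ≥0∞ := fun z => ENNReal.ofReal (‖fderiv ℝ u z‖ ^ p) with hg
  have hgm : Measurable g := measurable_dens p hp u hu
  have hm1 : ENNReal.ofReal (∫ z : ℂ, ‖fderiv ℝ u (Ψ z)‖ ^ p) ≤ ∫⁻ z, g (Ψ z) := by
    by_cases hi : Integrable (fun z : ℂ => ‖fderiv ℝ u (Ψ z)‖ ^ p)
    · rw [ofReal_integral_eq_lintegral_ofReal hi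
        (Eventually.of_forall fun z => Real.rpow_nonneg (norm_nonneg _) _)]
    · rw [integral_undef hi]; simp
  have hm2 : ∫⁻ z, g (Ψ z) = ∫⁻ z, g (ι (Psi lam X z)) := by
    have := hσmp.lintegral_comp_emb hσe (fun z => g (ι (Psi lam X z)))
    exact this
  have hm3 := lintegral_Psi_le lam α X hl hX0 hla (fun z => g (ι z))
    (hgm.comp hιl.continuous.measurable)
  have hm4 : (∫⁻ z in strip (X/lam), g (ι z)) + (∫⁻ z in asec (Real.pi/2 - α) (Real.pi/2), g (ι z))
      = en p u (κ ⁻¹' piece x α) := by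
    rw [hXl, ← lintegral_union (measurableSet_asec _ _) (strip_disjoint_asec x α hα1)]
    unfold en
    have h5 := hκmp.setLIntegral_comp_preimage_emb hκe (fun z => g (ι z)) (piece x α)
    simp only [hικ] at h5
    exact h5.symm
  rw [hm4] at hm3
  have hall : ENNReal.ofReal (cap p (segment ℝ a b)) ≤
      4 * (ENNReal.ofReal lam * en p u (κ ⁻¹' piece x α)) := by
    calc ENNReal.ofReal (cap p (segment ℝ a b)) ≤ ENNReal.ofReal (∫ z : ℂ, ‖fderiv ℝ u (Ψ z)‖ ^ p) :=
          ENNReal.ofReal_le_ofReal hmain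
      _ ≤ ∫⁻ z, g (Ψ z) := hm1
      _ = ∫⁻ z, g (ι (Psi lam X z)) := hm2
      _ ≤ _ := hm3
  calc ENNReal.ofReal (α * cap p (segment ℝ a b))
      = ENNReal.ofReal α * ENNReal.ofReal (cap p (segment ℝ a b)) := ENNReal.ofReal_mul hα0
    _ ≤ ENNReal.ofReal α * (4 * (ENNReal.ofReal lam * en p u (κ ⁻¹' piece x α))) := by gcongr
    _ = ENNReal.ofReal (2 * Real.pi) * en p u (κ ⁻¹' piece x α) := by
        rw [← mul_assoc, ← mul_assoc]
        congr 1
        have h4 : (4:ℝ≥0∞) = ENNReal.ofReal 4 := by simp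
        rw [h4, ← ENNReal.ofReal_mul hα0, ← ENNReal.ofReal_mul (by positivity)]
        congr 1
        calc α * 4 * lam = 4 * (lam * α) := by ring
          _ = 2 * Real.pi := by rw [hla]; ring

end Pool.Agent.PCap704
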