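import Pool.Agent.PCap704.Fold

set_option autoImplicit false
open MeasureTheory Set Metric Filter
open scoped ENNReal NNReal Topology

namespace Pool.Agent.PCap704

def strip (x : ℝ) : Set ℂ := {z | -x < z.re ∧ z.re < 0 ∧ 0 < z.im}

/-- open sector of directions with argument in `(a, b)` -/
def asec (a b : ℝ) : Set ℂ := {z | z ≠ 0 ∧ a < z.arg ∧ z.arg < b}

theorem measurableSet_asec (a b : ℝ) : MeasurableSet (asec a b) := by
  have h1 : MeasurableSet {z : ℂ | z ≠ 0} := (measurableSet_singleton (0:ℂ)).compl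
  have h2 : MeasurableSet {z : ℂ | a < z.arg} := measurableSet_lt measurable_const Complex.measurable_arg
  have h3 : MeasurableSet {z : ℂ | z.arg < b} := measurableSet_lt Complex.measurable_arg measurable_const
  exact h1.inter (h2.inter h3)

theorem measurableSet_strip (x : ℝ) : MeasurableSet (strip x) := by
  have h1 : MeasurableSet {z : ℂ | -x < z.re} := measurableSet_lt measurable_const Complex.measurable_re
  have h2 : MeasurableSet {z : ℂ | z.re < 0} := measurableSet_lt Complex.measurable_re measurable_const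
  have h3 : MeasurableSet {z : ℂ | 0 < z.im} := measurableSet_lt measurable_const Complex.measurable_im
  exact h1.inter (h2.inter h3)

theorem lintegral_asec (a b : ℝ) (ha : -Real.pi ≤ a) (hb : b ≤ Real.pi) (f : ℂ → ℝ≥0∞)
    (hf : Measurable f) :
    ∫⁻ z in asec a b, f z = ∫⁻ θ in Ioo a b, ∫⁻ r in Ioi (0:ℝ),
      ENNReal.ofReal r * f ((r:ℂ) * Complex.exp ((θ:ℂ) * Complex.I)) := by
  rw [← lintegral_indicator (measurableSet_asec a b), ← Complex.lintegral_comp_polarCoord_symm]
  have ht : polarCoord.target = Ioi (0:ℝ) ×ˢ Ioo (-Real.pi) Real.pi := rfl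
  rw [ht, Measure.volume_eq_prod]
  have hind : Measurable ((asec a b).indicator f) := hf.indicator (measurableSet_asec a b)
  have hsymm : Measurable (fun p : ℝ × ℝ => Complex.polarCoord.symm p) := by
    have : (fun p : ℝ × ℝ => Complex.polarCoord.symm p) = fun p : ℝ × ℝ =>
      (p.1 : ℂ) * (Real.cos p.2 + Real.sin p.2 * Complex.I) := by
      funext p; exact Complex.polarCoord_symm_apply p
    rw [this]
    fun_prop
  rw [setLIntegral_prod_symm]
  · -- outer in θ
    have h1 : ∀ θ ∈ Ioo (-Real.pi) Real.pi, (∫⁻ r in Ioi (0:ℝ), ENNReal.ofReal (r, θ).1 •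
        (asec a b).indicator f (Complex.polarCoord.symm (r, θ))) =
        (Ioo a b).indicator (fun θ => ∫⁻ r in Ioi (0:ℝ),
          ENNReal.ofReal r * f ((r:ℂ) * Complex.exp ((θ:ℂ) * Complex.I))) θ := by
      intro θ hθ
      have hpt : ∀ r ∈ Ioi (0:ℝ), Complex.polarCoord.symm (r, θ) ∈ asec a b ↔ θ ∈ Ioo a b := by
        intro r hr
        have hr' : 0 < r := hr
        rw [Complex.polarCoord_symm_apply]
        have harg : Complex.arg ((r:ℂ) * (Real.cos θ + Real.sin θ * Complex.I)) = θ := by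
          have := Complex.arg_mul_cos_add_sin_mul_I hr' (θ := θ) ⟨hθ.1, hθ.2.le⟩
          push_cast
          exact this
        have hne : ((r:ℂ) * (Real.cos θ + Real.sin θ * Complex.I)) ≠ 0 := by
          apply mul_ne_zero
          · exact_mod_cast hr'.ne'
          · push_cast
            rw [← Complex.exp_mul_I]
            exact Complex.exp_ne_zero _
        unfold asec
        simp only [mem_ofPred_eq, mem_Ioo]
        rw [harg]
        exact ⟨fun h => h.2, fun h => ⟨hne, h⟩⟩
      by_cases hab : θ ∈ Ioo a b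
      · rw [indicator_of_mem hab]
        apply setLIntegral_congr_fun measurableSet_Ioi
        intro r hr
        simp only [smul_eq_mul]
        rw [indicator_of_mem ((hpt r hr).2 hab), Complex.polarCoord_symm_apply]
        congr 3
        push_cast
        rw [← Complex.exp_mul_I]
      · rw [indicator_of_notMem hab]
        rw [setLIntegral_congr_fun (g := fun _ => 0) measurableSet_Ioi]
        · simp
        · intro r hr
          simp only [smul_eq_mul]
          rw [indicator_of_notMem (fun h => hab ((hpt r hr).1 h)), mul_zero]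
    rw [setLIntegral_congr_fun measurableSet_Ioo h1, setLIntegral_indicator measurableSet_Ioo]
    congr 2
    apply inter_eq_left.2
    intro x hx
    exact ⟨lt_of_le_of_lt ha hx.1, lt_of_lt_of_le hx.2 hb⟩
  · apply Measurable.aemeasurable
    simp only [smul_eq_mul]
    exact (ENNReal.measurable_ofReal.comp measurable_fst).mul (hind.comp hsymm)

theorem lintegral_scale (c d : ℝ) (hc : 0 < c) (k : ℝ → ℝ≥0∞) (hk : Measurable k) :
    ∫⁻ x, k (c * x + d) = ENNReal.ofReal c⁻¹ * ∫⁻ x, k x := by
  have h1 : ∫⁻ x, k (c * x + d) = ∫⁻ y, k (y + d) ∂(Measure.map (fun x => c * x) volume) := by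
    exact (lintegral_map (f := fun y => k (y + d)) (hk.comp (measurable_id.add_const d))
      (measurable_const_mul c)).symm
  rw [h1, Real.map_volume_mul_left hc.ne', lintegral_smul_measure, lintegral_add_right_eq_self,
    abs_of_pos (inv_pos.2 hc)]
  rfl

theorem lintegral_scale_Ioo (c d a b : ℝ) (hc : 0 < c) (k : ℝ → ℝ≥0∞) (hk : Measurable k) :
    ∫⁻ x in Ioo a b, k (c * x + d) = ENNReal.ofReal c⁻¹ *
      ∫⁻ y in Ioo (c * a + d) (c * b + d), k y := by
  rw [← lintegral_indicator measurableSet_Ioo, ← lintegral_indicator measurableSet_Ioo,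
    ← lintegral_scale c d hc _ (hk.indicator measurableSet_Ioo)]
  congr 1
  funext x
  have hiff : x ∈ Ioo a b ↔ c * x + d ∈ Ioo (c * a + d) (c * b + d) := by
    constructor
    · rintro ⟨h1, h2⟩
      constructor
      · have := mul_lt_mul_of_pos_left h1 hc; linarith
      · have := mul_lt_mul_of_pos_left h2 hc; linarith
    · rintro ⟨h1, h2⟩
      constructor
      · by_contra h
        have := mul_le_mul_of_nonneg_left (not_lt.1 h) hc.le; linarith
      · by_contra h
        have := mul_le_mul_of_nonneg_left (not_lt.1 h) hc.le; linarith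
  by_cases h : x ∈ Ioo a b
  · rw [indicator_of_mem h, indicator_of_mem (hiff.1 h)]
  · rw [indicator_of_notMem h, indicator_of_notMem (fun h' => h (hiff.2 h'))]

theorem measurable_polC (lam : ℝ) : Measurable (polC lam) := by
  unfold polC
  have h := Complex.measurable_arg
  fun_prop

/-- sector part of the push-forward -/
theorem lintegral_sector (lam α : ℝ) (hl : 1 ≤ lam) (hα : lam * α = Real.pi/2)
    (g : ℂ → ℝ≥0∞) (hg : Measurable g) :
    ∫⁻ z in asec 0 (Real.pi/2), g (polC lam z) =
      ENNReal.ofReal lam * ∫⁻ z in asec (Real.pi/2 - α) (Real.pi/2), g z := by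
  have hlp : 0 < lam := by linarith
  have hpi := Real.pi_pos
  have hα0 : 0 < α := by
    by_contra h
    have : lam * α ≤ 0 := mul_nonpos_of_nonneg_of_nonpos hlp.le (not_lt.1 h)
    linarith
  have hα1 : α ≤ Real.pi/2 := by nlinarith
  rw [lintegral_asec 0 (Real.pi/2) (by linarith) (by linarith) (fun z => g (polC lam z))
    (hg.comp (measurable_polC lam)),
    lintegral_asec _ _ (by linarith) (by linarith) g hg]
  set k : ℝ → ℝ≥0∞ := fun θ => ∫⁻ r in Ioi (0:ℝ),
      ENNReal.ofReal r * g ((r:ℂ) * Complex.exp ((θ:ℂ) * Complex.I)) with hk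
  have hkm : Measurable k := by
    rw [hk]
    apply Measurable.lintegral_prod_right' (f := fun p : ℝ × ℝ =>
      ENNReal.ofReal p.2 * g ((p.2:ℂ) * Complex.exp ((p.1:ℂ) * Complex.I)))
    apply Measurable.mul
    · exact ENNReal.measurable_ofReal.comp measurable_snd
    · apply hg.comp
      fun_prop
  have hsc := lintegral_scale_Ioo lam⁻¹ (Real.pi/2 - (Real.pi/2)/lam) 0 (Real.pi/2)
    (inv_pos.2 hlp) k hkm
  have e1 : lam⁻¹ * 0 + (Real.pi/2 - (Real.pi/2)/lam) = Real.pi/2 - α := by
    rw [← hα]; field_simp; ring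
  have e2 : lam⁻¹ * (Real.pi/2) + (Real.pi/2 - (Real.pi/2)/lam) = Real.pi/2 := by
    field_simp; ring
  rw [e1, e2, inv_inv] at hsc
  rw [← hsc]
  apply setLIntegral_congr_fun measurableSet_Ioo
  intro θ hθ
  simp only [hk]
  apply setLIntegral_congr_fun measurableSet_Ioi
  intro r hr
  have hr' : (0:ℝ) < r := hr
  simp only
  congr 2
  unfold polC
  have harg : Complex.arg ((r:ℂ) * Complex.exp ((θ:ℂ) * Complex.I)) = θ := by
    rw [Complex.exp_mul_I]
    exact Complex.arg_mul_cos_add_sin_mul_I hr' ⟨by linarith [hθ.1], by linarith [hθ.2]⟩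
  have hn : ‖(r:ℂ) * Complex.exp ((θ:ℂ) * Complex.I)‖ = r := by
    rw [norm_mul, Complex.norm_exp_ofReal_mul_I, mul_one, Complex.norm_real, Real.norm_of_nonneg hr'.le]
  rw [harg, hn]
  congr 3
  push_cast
  field_simp
  ring

/-- strip part of the push-forward -/
theorem lintegral_strip (lam X : ℝ) (hl : 1 ≤ lam)
    (g : ℂ → ℝ≥0∞) (hg : Measurable g) :
    ∫⁻ z in strip X, g ⟨z.re / lam, z.im⟩ =
      ENNReal.ofReal lam * ∫⁻ z in strip (X / lam), g z := by
  have hlp : 0 < lam := by linarith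
  -- general formula
  have gen : ∀ (Y : ℝ) (f : ℂ → ℝ≥0∞), Measurable f →
      ∫⁻ z in strip Y, f z = ∫⁻ x in Ioo (-Y) 0, ∫⁻ y in Ioi (0:ℝ), f ⟨x, y⟩ := by
    intro Y f hf
    have hpre : strip Y = Complex.measurableEquivRealProd ⁻¹' (Ioo (-Y) 0 ×ˢ Ioi (0:ℝ)) := by
      ext z
      simp [strip, and_assoc]
    have hcomp : ∀ z, f z = (fun p : ℝ × ℝ => f ⟨p.1, p.2⟩) (Complex.measurableEquivRealProd z) := by
      intro z; rfl
    have hmk : Measurable (fun p : ℝ × ℝ => (⟨p.1, p.2⟩ : ℂ)) :=
      Complex.measurableEquivRealProd.symm.measurable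
    calc ∫⁻ z in strip Y, f z
        = ∫⁻ z in Complex.measurableEquivRealProd ⁻¹' (Ioo (-Y) 0 ×ˢ Ioi (0:ℝ)),
            (fun p : ℝ × ℝ => f ⟨p.1, p.2⟩) (Complex.measurableEquivRealProd z) := by
          rw [hpre]; rfl
      _ = ∫⁻ p in (Ioo (-Y) 0 ×ˢ Ioi (0:ℝ)), f ⟨p.1, p.2⟩ := by
          exact Complex.volume_preserving_equiv_real_prod.setLIntegral_comp_preimage_emb
            Complex.measurableEquivRealProd.measurableEmbedding
            (fun p : ℝ × ℝ => f ⟨p.1, p.2⟩) (Ioo (-Y) 0 ×ˢ Ioi (0:ℝ))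
      _ = _ := by
          rw [Measure.volume_eq_prod, setLIntegral_prod]
          exact (hf.comp hmk).aemeasurable
  have hmk2 : Measurable (fun z : ℂ => (⟨z.re / lam, z.im⟩ : ℂ)) := by
    have hmk : Measurable (fun p : ℝ × ℝ => (⟨p.1, p.2⟩ : ℂ)) :=
      Complex.measurableEquivRealProd.symm.measurable
    have : Measurable (fun z : ℂ => ((z.re / lam, z.im) : ℝ × ℝ)) :=
      (Complex.measurable_re.div_const lam).prodMk Complex.measurable_im
    exact hmk.comp this
  rw [gen X (fun z => g ⟨z.re / lam, z.im⟩) (hg.comp hmk2), gen (X/lam) g hg]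
  set k : ℝ → ℝ≥0∞ := fun x => ∫⁻ y in Ioi (0:ℝ), g ⟨x, y⟩ with hk
  have hkm : Measurable k := by
    rw [hk]
    apply Measurable.lintegral_prod_right' (f := fun p : ℝ × ℝ => g ⟨p.1, p.2⟩)
    exact hg.comp Complex.measurableEquivRealProd.symm.measurable
  have hsc := lintegral_scale_Ioo lam⁻¹ 0 (-X) 0 (inv_pos.2 hlp) k hkm
  have e1 : lam⁻¹ * (-X) + 0 = -(X/lam) := by field_simp; ring
  have e2 : lam⁻¹ * 0 + 0 = (0:ℝ) := by ring
  rw [e1, e2, inv_inv] at hsc
  rw [← hsc]
  apply setLIntegral_congr_fun measurableSet_Ioo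
  intro x hx
  simp only [hk, add_zero]
  rw [div_eq_inv_mul]

end Pool.Agent.PCap704
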