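import Pool.Agent.PCap704.Push

set_option autoImplicit false
open MeasureTheory Set Metric Filter
open scoped ENNReal NNReal Topology ComplexConjugate

namespace Pool.Agent.PCap704

theorem mp_iso (c d : ℂ) (hc : ‖c‖ = 1) : MeasurePreserving (fun z : ℂ => c * z + d) volume volume := by
  have h1 : MeasurePreserving (fun z : ℂ => c * z) volume volume := by
    have := (rotation (⟨c, mem_sphere_zero_iff_norm.2 hc⟩ : Circle)).measurePreserving
    exact this
  exact (measurePreserving_add_right volume d).comp h1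

theorem mp_isoc (c d : ℂ) (hc : ‖c‖ = 1) :
    MeasurePreserving (fun z : ℂ => c * conj z + d) volume volume :=
  (mp_iso c d hc).comp Complex.conjLIE.measurePreserving

theorem emb_iso (c d : ℂ) (hc : ‖c‖ = 1) : MeasurableEmbedding (fun z : ℂ => c * z + d) := by
  have hc0 : c ≠ 0 := by intro h; rw [h] at hc; simp at hc
  apply Continuous.measurableEmbedding (by fun_prop)
  intro z w h
  simp only at h
  exact mul_left_cancel₀ hc0 (add_right_cancel h)

theorem emb_isoc (c d : ℂ) (hc : ‖c‖ = 1) : MeasurableEmbedding (fun z : ℂ => c * conj z + d) := by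
  have hc0 : c ≠ 0 := by intro h; rw [h] at hc; simp at hc
  apply Continuous.measurableEmbedding (by fun_prop)
  intro z w h
  simp only at h
  exact (starRingEnd ℂ).injective (mul_left_cancel₀ hc0 (add_right_cancel h))

theorem ae_re_ne (c : ℝ) : ∀ᵐ z : ℂ, z.re ≠ c := by
  have h1 : ∀ᵐ x : ℝ, x ≠ c := by
    have : volume ({c} : Set ℝ) = 0 := by simp
    exact measure_eq_zero_iff_ae_notMem.1 this
  have h2 : Measure.QuasiMeasurePreserving (fun z : ℂ => (Complex.measurableEquivRealProd z).1)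
      volume volume :=
    Measure.quasiMeasurePreserving_fst.comp
      Complex.volume_preserving_equiv_real_prod.quasiMeasurePreserving
  exact h2.ae h1

theorem ae_im_ne (c : ℝ) : ∀ᵐ z : ℂ, z.im ≠ c := by
  have h1 : ∀ᵐ x : ℝ, x ≠ c := by
    have : volume ({c} : Set ℝ) = 0 := by simp
    exact measure_eq_zero_iff_ae_notMem.1 this
  have h2 : Measure.QuasiMeasurePreserving (fun z : ℂ => (Complex.measurableEquivRealProd z).2)
      volume volume :=
    Measure.quasiMeasurePreserving_snd.comp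
      Complex.volume_preserving_equiv_real_prod.quasiMeasurePreserving
  exact h2.ae h1

theorem push_reflect (G : ℂ → ℝ≥0∞) (Q : Set ℂ) (e : ℂ → ℂ)
    (he : MeasurePreserving e volume volume)
    (hemb : MeasurableEmbedding e) (hG : ∀ z, G (e z) = G z) :
    ∫⁻ z in e ⁻¹' Q, G z = ∫⁻ z in Q, G z := by
  rw [← he.setLIntegral_comp_preimage_emb hemb G Q]
  simp only [hG]

theorem lintegral_Psi_le (lam α X : ℝ) (hl : 1 ≤ lam) (hX : 0 ≤ X) (hα : lam * α = Real.pi/2)
    (g : ℂ → ℝ≥0∞) (hg : Measurable g) :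
    ∫⁻ z, g (Psi lam X z) ≤ 4 * (ENNReal.ofReal lam * ((∫⁻ z in strip (X/lam), g z) +
      (∫⁻ z in asec (Real.pi/2 - α) (Real.pi/2), g z))) := by
  set G : ℂ → ℝ≥0∞ := fun z => g (Psi lam X z) with hG
  set Q : Set ℂ := {z | -X < z.re ∧ 0 < z.im} with hQ
  set e1 : ℂ → ℂ := fun z => (-1) * conj z + ((-(2*X) : ℝ) : ℂ) with he1
  set e2 : ℂ → ℂ := fun z => 1 * conj z + 0 with he2
  set e3 : ℂ → ℂ := fun z => (-1) * z + ((-(2*X) : ℝ) : ℂ) with he3
  have hn1 : ‖(-1 : ℂ)‖ = 1 := by simp
  have hn2 : ‖(1 : ℂ)‖ = 1 := by simp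
  have f1 : ∀ z, fold X (e1 z) = fold X z := by
    intro z
    unfold fold
    apply Complex.ext
    · simp only [he1, Complex.add_re, Complex.mul_re, Complex.neg_re, Complex.one_re,
        Complex.conj_re, Complex.neg_im, Complex.one_im, Complex.conj_im, Complex.ofReal_re]
      have : -1 * z.re - -0 * -z.im + -(2 * X) + X = -(z.re + X) := by ring
      rw [this, abs_neg]
    · simp [he1]
  have f2 : ∀ z, fold X (e2 z) = fold X z := by
    intro z
    unfold fold
    apply Complex.ext
    · simp [he2]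
    · simp [he2]
  have f3 : ∀ z, fold X (e3 z) = fold X z := by
    intro z
    unfold fold
    apply Complex.ext
    · simp only [he3, Complex.add_re, Complex.mul_re, Complex.neg_re, Complex.one_re,
        Complex.neg_im, Complex.one_im, Complex.ofReal_re]
      have : -1 * z.re - -0 * z.im + -(2 * X) + X = -(z.re + X) := by ring
      rw [this, abs_neg]
    · simp [he3]
  have i1 : ∫⁻ z in e1 ⁻¹' Q, G z = ∫⁻ z in Q, G z :=
    push_reflect G Q e1 (mp_isoc _ _ hn1) (emb_isoc _ _ hn1)
      (fun z => by simp only [hG, Psi, f1])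
  have i2 : ∫⁻ z in e2 ⁻¹' Q, G z = ∫⁻ z in Q, G z :=
    push_reflect G Q e2 (mp_isoc _ _ hn2) (emb_isoc _ _ hn2)
      (fun z => by simp only [hG, Psi, f2])
  have i3 : ∫⁻ z in e3 ⁻¹' Q, G z = ∫⁻ z in Q, G z :=
    push_reflect G Q e3 (mp_iso _ _ hn1) (emb_iso _ _ hn1)
      (fun z => by simp only [hG, Psi, f3])
  have hcov : ∀ᵐ z : ℂ, z ∈ (Q ∪ e1 ⁻¹' Q) ∪ (e2 ⁻¹' Q ∪ e3 ⁻¹' Q) := by
    filter_upwards [ae_re_ne (-X), ae_im_ne 0] with z h1 h2
    rcases lt_or_gt_of_ne h1 with h1 | h1 <;> rcases lt_or_gt_of_ne h2 with h2 | h2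
    · right; right
      simp only [mem_preimage, hQ, he3]
      constructor
      · simp; linarith
      · simp; linarith
    · left; right
      simp only [mem_preimage, hQ, he1]
      constructor
      · simp; linarith
      · simp; linarith
    · right; left
      simp only [mem_preimage, hQ, he2]
      constructor
      · simp; linarith
      · simp; linarith
    · left; left
      exact ⟨h1, h2⟩
  have hstep1 : ∫⁻ z, G z ≤ 4 * ∫⁻ z in Q, G z := by
    calc ∫⁻ z, G z = ∫⁻ z in (Q ∪ e1 ⁻¹' Q) ∪ (e2 ⁻¹' Q ∪ e3 ⁻¹' Q), G z := by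
          rw [Measure.restrict_eq_self_of_ae_mem hcov]
      _ ≤ (∫⁻ z in (Q ∪ e1 ⁻¹' Q), G z) + (∫⁻ z in (e2 ⁻¹' Q ∪ e3 ⁻¹' Q), G z) :=
          lintegral_union_le _ _ _
      _ ≤ ((∫⁻ z in Q, G z) + (∫⁻ z in e1 ⁻¹' Q, G z)) +
          ((∫⁻ z in e2 ⁻¹' Q, G z) + (∫⁻ z in e3 ⁻¹' Q, G z)) :=
          add_le_add (lintegral_union_le _ _ _) (lintegral_union_le _ _ _)
      _ = 4 * ∫⁻ z in Q, G z := by rw [i1, i2, i3]; ring
  have hstep2 : ∫⁻ z in Q, G z ≤ (∫⁻ z in strip X, G z) + (∫⁻ z in asec 0 (Real.pi/2), G z) := by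
    refine le_trans ?_ (lintegral_union_le G (strip X) (asec 0 (Real.pi/2)))
    have hQm : MeasurableSet Q :=
      (measurableSet_lt measurable_const Complex.measurable_re).inter
        (measurableSet_lt measurable_const Complex.measurable_im)
    apply lintegral_mono' _ le_rfl
    apply Measure.restrict_mono_ae
    filter_upwards [ae_re_ne 0] with z hz hzQ
    obtain ⟨h1, h2⟩ := hzQ
    rcases lt_or_gt_of_ne hz with h3 | h3
    · left; exact ⟨h1, h3, h2⟩
    · right
      refine ⟨?_, ?_, ?_⟩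
      · intro h; rw [h] at h3; simp at h3
      · have h4 : 0 ≤ z.arg := Complex.arg_nonneg_iff.2 h2.le
        rcases eq_or_lt_of_le h4 with h5 | h5
        · exfalso
          have := (Complex.arg_eq_zero_iff.1 h5.symm).2
          linarith
        · exact h5
      · exact Complex.arg_lt_pi_div_two_iff.2 (Or.inl h3)
  have hs1 : ∫⁻ z in strip X, G z = ENNReal.ofReal lam * ∫⁻ z in strip (X / lam), g z := by
    rw [← lintegral_strip lam X hl g hg]
    apply setLIntegral_congr_fun (measurableSet_strip X)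
    intro z hz
    obtain ⟨h1, h2, h3⟩ := hz
    simp only [hG]
    have hf : fold X z = z := by
      unfold fold
      rw [abs_of_pos (by linarith), abs_of_pos h3]
      apply Complex.ext <;> simp
    unfold Psi
    rw [hf]
    unfold Phi
    rw [if_pos h2.le]
  have hs2 : ∫⁻ z in asec 0 (Real.pi/2), G z ≤ ENNReal.ofReal lam *
      ∫⁻ z in asec (Real.pi/2 - α) (Real.pi/2), g z := by
    rw [← lintegral_sector lam α hl hα g hg]
    apply le_of_eq
    apply setLIntegral_congr_fun (measurableSet_asec _ _)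
    intro z hz
    obtain ⟨h0, h1, h2⟩ := hz
    simp only [hG]
    have him : 0 ≤ z.im := Complex.arg_nonneg_iff.1 h1.le
    have hre : 0 ≤ z.re := by
      have : |z.arg| ≤ Real.pi/2 := by rw [abs_le]; constructor <;> linarith [Real.pi_pos]
      exact Complex.abs_arg_le_pi_div_two_iff.1 this
    have hf : fold X z = z := by
      unfold fold
      rw [abs_of_nonneg (by linarith), abs_of_nonneg him]
      apply Complex.ext <;> simp
    unfold Psi
    rw [hf, Phi_eq_polC lam z hre him]
  calc ∫⁻ z, G z ≤ 4 * ∫⁻ z in Q, G z := hstep1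
    _ ≤ 4 * ((∫⁻ z in strip X, G z) + (∫⁻ z in asec 0 (Real.pi/2), G z)) := by gcongr
    _ ≤ 4 * (ENNReal.ofReal lam * (∫⁻ z in strip (X / lam), g z) + ENNReal.ofReal lam *
      (∫⁻ z in asec (Real.pi/2 - α) (Real.pi/2), g z)) := by
        rw [hs1]; gcongr
    _ = _ := by rw [mul_add (ENNReal.ofReal lam)]

end Pool.Agent.PCap704
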