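import Pool.Agent.PCap704.Piece

set_option autoImplicit false
open MeasureTheory Set Metric Filter
open scoped ENNReal NNReal Topology ComplexConjugate

namespace Pool.Agent.PCap704

theorem piece_sub (x α : ℝ) (hx : 0 ≤ x) (hα1 : α ≤ Real.pi/2) (z : ℂ)
    (hz : z ∈ piece x α) : -x < z.re ∧ 0 < z.im := by
  have hpi := Real.pi_pos
  rcases hz with ⟨h1, h2, h3⟩ | ⟨h1, h2, h3⟩
  · exact ⟨h1, h3⟩
  · have ha : 0 < z.arg := by linarith
    have him0 : 0 ≤ z.im := Complex.arg_nonneg_iff.1 ha.le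
    have him : 0 < z.im := by
      rcases eq_or_lt_of_le him0 with h | h
      · exfalso
        have hre : 0 ≤ z.re := by
          have : |z.arg| ≤ Real.pi/2 := by rw [abs_le]; constructor <;> linarith
          exact Complex.abs_arg_le_pi_div_two_iff.1 this
        have : z.arg = 0 := Complex.arg_eq_zero_iff.2 ⟨hre, h.symm⟩
        linarith
      · exact h
    have hre : 0 < z.re := by
      have h5 := Complex.arg_lt_pi_div_two_iff.1 h3
      rcases h5 with h | h | h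
      · exact h
      · linarith
      · exact absurd h h1
    exact ⟨by linarith, him⟩

theorem quad_half (α : ℝ) (hα0 : 0 ≤ α) (hα1 : α ≤ Real.pi/2) (z : ℂ) (h1 : z.re < 0)
    (h2 : 0 < z.im) : (z * Complex.exp ((α:ℂ) * Complex.I)).re < 0 := by
  rw [Complex.mul_re, Complex.exp_ofReal_mul_I_re, Complex.exp_ofReal_mul_I_im]
  have hc : 0 ≤ Real.cos α := Real.cos_nonneg_of_mem_Icc ⟨by linarith [Real.pi_pos], hα1⟩
  have hs : 0 ≤ Real.sin α := Real.sin_nonneg_of_nonneg_of_le_pi hα0 (by linarith [Real.pi_pos])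
  have hsc := Real.sin_sq_add_cos_sq α
  rcases eq_or_lt_of_le hc with h | h
  · have : 0 < Real.sin α := by
      rcases eq_or_lt_of_le hs with h' | h'
      · rw [← h, ← h'] at hsc; norm_num at hsc
      · exact h'
    nlinarith
  · nlinarith

theorem piece_half (x α : ℝ) (hα0 : 0 ≤ α) (hα1 : α ≤ Real.pi/2) (z : ℂ)
    (hz : z ∈ piece x α) : (z * Complex.exp ((α:ℂ) * Complex.I)).re < 0 := by
  have hpi := Real.pi_pos
  rcases hz with ⟨h1, h2, h3⟩ | ⟨h1, h2, h3⟩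
  · exact quad_half α hα0 hα1 z h2 h3
  · have hz : z = (‖z‖ : ℂ) * Complex.exp ((z.arg : ℂ) * Complex.I) :=
      (Complex.norm_mul_exp_arg_mul_I z).symm
    have e : z * Complex.exp ((α:ℂ) * Complex.I) =
        (‖z‖ : ℂ) * Complex.exp (((z.arg + α : ℝ) : ℂ) * Complex.I) := by
      conv_lhs => rw [hz]
      rw [mul_assoc, ← Complex.exp_add]
      congr 2
      push_cast
      ring
    rw [e, Complex.re_ofReal_mul, Complex.exp_ofReal_mul_I_re]
    have hn : 0 < ‖z‖ := norm_pos_iff.2 h1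
    have hc : Real.cos (z.arg + α) < 0 := by
      apply Real.cos_neg_of_pi_div_two_lt_of_lt <;> linarith
    exact mul_neg_of_pos_of_neg hn hc

/-- coordinates of the end-vertex `Q`. -/
noncomputable def kQ (Q d : ℂ) (w : ℂ) : ℂ := d * conj w + (-(d * conj Q))
/-- coordinates of the start-vertex `P`. -/
noncomputable def kP (P d : ℂ) (w : ℂ) : ℂ := (-conj d) * w + conj d * P

noncomputable def iQ (Q d : ℂ) (z : ℂ) : ℂ := Q + d * conj z
noncomputable def iP (P d : ℂ) (z : ℂ) : ℂ := P - d * z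

theorem unit_mul_conj (d : ℂ) (hd : ‖d‖ = 1) : d * conj d = 1 := by
  rw [Complex.mul_conj, Complex.normSq_eq_norm_sq, hd]; simp

theorem iQ_kQ (Q d : ℂ) (hd : ‖d‖ = 1) (w : ℂ) : iQ Q d (kQ Q d w) = w := by
  unfold iQ kQ
  simp only [map_add, map_mul, map_neg, Complex.conj_conj]
  have := unit_mul_conj d hd
  linear_combination (w - Q) * this

theorem iP_kP (P d : ℂ) (hd : ‖d‖ = 1) (w : ℂ) : iP P d (kP P d w) = w := by
  unfold iP kP
  have := unit_mul_conj d hd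
  linear_combination (w - P) * this

/-- relation between the two coordinates of an edge -/
theorem kQ_kP (P Q d : ℂ) (ℓ : ℝ) (hd : ‖d‖ = 1) (hQ : Q = P + ℓ * d) (w : ℂ) :
    (kQ Q d w).re = -(kP P d w).re - ℓ ∧ (kQ Q d w).im = (kP P d w).im := by
  have e : kQ Q d w = -conj (kP P d w) - ℓ := by
    unfold kQ kP
    rw [hQ]
    simp only [map_add, map_mul, map_neg, Complex.conj_conj, Complex.conj_ofReal]
    have := unit_mul_conj d hd
    linear_combination (-(ℓ:ℂ)) * this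
  rw [e]
  constructor
  · simp
  · simp

/-- the region over an edge -/
noncomputable def reg (P Q d : ℂ) (xP αP xQ αQ : ℝ) : Set ℂ :=
  kP P d ⁻¹' piece xP αP ∪ kQ Q d ⁻¹' piece xQ αQ

theorem measurable_kP (P d : ℂ) : Measurable (kP P d) := by
  apply Continuous.measurable; unfold kP; fun_prop
theorem measurable_kQ (Q d : ℂ) : Measurable (kQ Q d) := by
  apply Continuous.measurable; unfold kQ; fun_prop

theorem measurableSet_reg (P Q d : ℂ) (xP αP xQ αQ : ℝ) : MeasurableSet (reg P Q d xP αP xQ αQ) :=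
  (measurable_kP P d (measurableSet_piece _ _)).union (measurable_kQ Q d (measurableSet_piece _ _))

theorem reg_disj (P Q d : ℂ) (ℓ : ℝ) (hd : ‖d‖ = 1) (hQ : Q = P + ℓ * d) (xP αP xQ αQ : ℝ)
    (hxP : 0 ≤ xP) (hxQ : 0 ≤ xQ) (hP1 : αP ≤ Real.pi/2) (hQ1 : αQ ≤ Real.pi/2)
    (hℓ : ℓ = xP + xQ) :
    Disjoint (kP P d ⁻¹' piece xP αP) (kQ Q d ⁻¹' piece xQ αQ) := by
  rw [Set.disjoint_left]
  intro w h1 h2
  have a1 := (piece_sub xP αP hxP hP1 _ h1).1
  have a2 := (piece_sub xQ αQ hxQ hQ1 _ h2).1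
  have a3 := (kQ_kP P Q d ℓ hd hQ w).1
  linarith

theorem reg_half_Q (P Q d : ℂ) (ℓ : ℝ) (hd : ‖d‖ = 1) (hQ : Q = P + ℓ * d) (xP αP xQ αQ : ℝ)
    (hxP : 0 ≤ xP) (hxQ : 0 ≤ xQ) (hP1 : αP ≤ Real.pi/2) (hQ0 : 0 ≤ αQ) (hQ1 : αQ ≤ Real.pi/2)
    (hℓ : ℓ = xP + xQ) (w : ℂ) (hw : w ∈ reg P Q d xP αP xQ αQ) :
    (kQ Q d w * Complex.exp ((αQ:ℂ) * Complex.I)).re < 0 := by
  rcases hw with h | h
  · have a1 := piece_sub xP αP hxP hP1 _ h
    have a3 := kQ_kP P Q d ℓ hd hQ w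
    apply quad_half αQ hQ0 hQ1
    · linarith [a1.1, a3.1]
    · rw [a3.2]; exact a1.2
  · exact piece_half xQ αQ hQ0 hQ1 _ h

theorem reg_half_P (P Q d : ℂ) (ℓ : ℝ) (hd : ‖d‖ = 1) (hQ : Q = P + ℓ * d) (xP αP xQ αQ : ℝ)
    (hxP : 0 ≤ xP) (hxQ : 0 ≤ xQ) (hP0 : 0 ≤ αP) (hP1 : αP ≤ Real.pi/2) (hQ1 : αQ ≤ Real.pi/2)
    (hℓ : ℓ = xP + xQ) (w : ℂ) (hw : w ∈ reg P Q d xP αP xQ αQ) :
    (kP P d w * Complex.exp ((αP:ℂ) * Complex.I)).re < 0 := by
  rcases hw with h | h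
  · exact piece_half xP αP hP0 hP1 _ h
  · have a1 := piece_sub xQ αQ hxQ hQ1 _ h
    have a3 := kQ_kP P Q d ℓ hd hQ w
    apply quad_half αP hP0 hP1
    · linarith [a1.1, a3.1]
    · rw [← a3.2]; exact a1.2

/-- separation at a common vertex `Q` -/
theorem vertex_sep (Q d d' : ℂ) (β α α' : ℝ) (hrel : -d = d' * Complex.exp ((β:ℂ) * Complex.I))
    (hsum : α + α' + β = Real.pi) (w : ℂ) :
    (kQ Q d w * Complex.exp ((α:ℂ) * Complex.I)).re =
      -(kP Q d' w * Complex.exp ((α':ℂ) * Complex.I)).re := by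
  have h1 : d * Complex.exp ((α:ℂ) * Complex.I) = d' * Complex.exp (-((α':ℂ) * Complex.I)) := by
    have e1 : d = -(d' * Complex.exp ((β:ℂ) * Complex.I)) := by rw [← hrel]; ring
    rw [e1, neg_mul, mul_assoc, ← Complex.exp_add]
    have e2 : (β:ℂ) * Complex.I + (α:ℂ) * Complex.I = (Real.pi : ℂ) * Complex.I +
        -((α':ℂ) * Complex.I) := by
      have : ((β:ℂ) + α) = Real.pi - α' := by
        have : β + α = Real.pi - α' := by linarith
        exact_mod_cast this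
      calc (β:ℂ) * Complex.I + (α:ℂ) * Complex.I = ((β:ℂ) + α) * Complex.I := by ring
        _ = _ := by rw [this]; ring
    rw [e2, Complex.exp_add, Complex.exp_pi_mul_I]
    ring
  have e3 : kQ Q d w * Complex.exp ((α:ℂ) * Complex.I) =
      conj (w - Q) * (d * Complex.exp ((α:ℂ) * Complex.I)) := by
    unfold kQ
    rw [map_sub]; ring
  have e4 : kP Q d' w * Complex.exp ((α':ℂ) * Complex.I) =
      -((w - Q) * (conj d' * Complex.exp ((α':ℂ) * Complex.I))) := by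
    unfold kP; ring
  rw [e3, h1, e4, Complex.neg_re, neg_neg]
  have e5 : conj (w - Q) * (d' * Complex.exp (-((α':ℂ) * Complex.I))) =
      conj ((w - Q) * (conj d' * Complex.exp ((α':ℂ) * Complex.I))) := by
    rw [map_mul, map_mul, Complex.conj_conj, ← Complex.exp_conj]
    congr 3
    simp
  rw [e5, Complex.conj_re]

theorem reg_reg_disj (P Q R d d' : ℂ) (ℓ ℓ' : ℝ) (hd : ‖d‖ = 1) (hd' : ‖d'‖ = 1)
    (hQ : Q = P + ℓ * d) (hR : R = Q + ℓ' * d')
    (xP αP xQ αQ yQ γQ yR γR β : ℝ)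
    (hxP : 0 ≤ xP) (hxQ : 0 ≤ xQ) (hyQ : 0 ≤ yQ) (hyR : 0 ≤ yR)
    (hP1 : αP ≤ Real.pi/2) (hQ0 : 0 ≤ αQ) (hQ1 : αQ ≤ Real.pi/2)
    (hγ0 : 0 ≤ γQ) (hγ1 : γQ ≤ Real.pi/2) (hγR1 : γR ≤ Real.pi/2)
    (hℓ : ℓ = xP + xQ) (hℓ' : ℓ' = yQ + yR)
    (hrel : -d = d' * Complex.exp ((β:ℂ) * Complex.I)) (hsum : αQ + γQ + β = Real.pi) :
    Disjoint (reg P Q d xP αP xQ αQ) (reg Q R d' yQ γQ yR γR) := by
  rw [Set.disjoint_left]
  intro w h1 h2
  have a1 := reg_half_Q P Q d ℓ hd hQ xP αP xQ αQ hxP hxQ hP1 hQ0 hQ1 hℓ w h1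
  have a2 := reg_half_P Q R d' ℓ' hd' hR yQ γQ yR γR hyQ hyR hγ0 hγ1 hγR1 hℓ' w h2
  have a3 := vertex_sep Q d d' β αQ γQ hrel hsum w
  linarith

/-- energy over an edge -/
theorem edge_bound (p : ℝ) (hp : 0 < p) (u : ℂ → ℝ) (hu : ContDiff ℝ 1 u)
    (huc : HasCompactSupport u) (U : Set ℂ) (hU : IsOpen U) (hu1 : ∀ x ∈ U, 1 ≤ u x)
    (P Q d : ℂ) (ℓ μ : ℝ) (hμ : 0 < μ) (hd : ‖d‖ = 1) (hQ : Q = P + ℓ * d)
    (hPQ : segment ℝ P Q ⊆ U) (hℓ0 : 0 < ℓ)
    (αP αQ : ℝ) (hP0 : 0 ≤ αP) (hP1 : αP ≤ Real.pi/2) (hQ0 : 0 ≤ αQ) (hQ1 : αQ ≤ Real.pi/2)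
    (hℓ : ℓ = μ * αP + μ * αQ) (a b : ℂ) (hab : dist a b = μ * Real.pi) :
    ENNReal.ofReal ((αP + αQ) * cap p (segment ℝ a b)) ≤
      ENNReal.ofReal (2 * Real.pi) * en p u (reg P Q d (μ * αP) αP (μ * αQ) αQ) := by
  have hx1 : 0 ≤ μ * αP := by positivity
  have hx2 : 0 ≤ μ * αQ := by positivity
  have hcd : ‖-conj d‖ = 1 := by rw [norm_neg, RCLike.norm_conj, hd]
  have hmem : ∀ t : ℝ, 0 ≤ t → t ≤ ℓ → P + (t:ℂ) * d ∈ segment ℝ P Q := by
    intro t h1 h2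
    rw [segment_eq_image_lineMap]
    refine ⟨t / ℓ, ⟨by positivity, by rw [div_le_one hℓ0]; exact h2⟩, ?_⟩
    rw [AffineMap.lineMap_apply, hQ]
    simp only [vsub_eq_sub, vadd_eq_add, Complex.real_smul, add_sub_cancel_left]
    push_cast
    have : (ℓ:ℂ) ≠ 0 := by exact_mod_cast hℓ0.ne'
    field_simp
    ring
  have b1 := piece_bound p hp u hu huc U hU hu1 (iP P d) (kP P d)
    (by
      apply LipschitzWith.mk_one
      intro z w
      rw [dist_eq_norm, dist_eq_norm]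
      have : iP P d z - iP P d w = -(d * (z - w)) := by unfold iP; ring
      rw [this, norm_neg, norm_mul, hd, one_mul])
    ⟨‖P‖, by
      intro z
      have h1 : d * z = P - iP P d z := by unfold iP; ring
      have h2 : ‖z‖ = ‖d * z‖ := by rw [norm_mul, hd, one_mul]
      rw [h2, h1, norm_sub_rev]
      exact (norm_sub_le _ _)⟩
    (mp_iso _ _ hcd) (emb_iso _ _ hcd) (iP_kP P d hd) (μ * αP) αP μ hμ hP0 hP1 rfl
    (by
      intro s h1 h2
      apply hPQ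
      have := hmem (-s) (by linarith) (by rw [hℓ]; linarith)
      have e : iP P d (s:ℂ) = P + ((-s : ℝ):ℂ) * d := by unfold iP; push_cast; ring
      rw [e]; exact this)
    a b hab
  have b2 := piece_bound p hp u hu huc U hU hu1 (iQ Q d) (kQ Q d)
    (by
      apply LipschitzWith.mk_one
      intro z w
      rw [dist_eq_norm, dist_eq_norm]
      have : iQ Q d z - iQ Q d w = d * conj (z - w) := by unfold iQ; rw [map_sub]; ring
      rw [this, norm_mul, hd, one_mul, RCLike.norm_conj])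
    ⟨‖Q‖, by
      intro z
      have h1 : d * conj z = iQ Q d z - Q := by unfold iQ; ring
      have h2 : ‖z‖ = ‖d * conj z‖ := by rw [norm_mul, hd, one_mul, RCLike.norm_conj]
      rw [h2, h1]
      exact (norm_sub_le _ _)⟩
    (mp_isoc _ _ hd) (emb_isoc _ _ hd) (iQ_kQ Q d hd) (μ * αQ) αQ μ hμ hQ0 hQ1 rfl
    (by
      intro s h1 h2
      apply hPQ
      have := hmem (ℓ + s) (by rw [hℓ]; linarith) (by linarith)
      have e : iQ Q d (s:ℂ) = P + ((ℓ + s : ℝ):ℂ) * d := by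
        unfold iQ; rw [hQ, Complex.conj_ofReal]; push_cast; ring
      rw [e]; exact this)
    a b hab
  have hcap := cap_nonneg p (segment ℝ a b)
  have hdis := reg_disj P Q d ℓ hd hQ (μ * αP) αP (μ * αQ) αQ hx1 hx2 hP1 hQ1 hℓ
  have hen : en p u (reg P Q d (μ * αP) αP (μ * αQ) αQ) =
      en p u (kP P d ⁻¹' piece (μ * αP) αP) + en p u (kQ Q d ⁻¹' piece (μ * αQ) αQ) := by
    unfold en reg
    rw [lintegral_union (measurable_kQ Q d (measurableSet_piece _ _)) hdis]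
  rw [hen, mul_add, add_mul, ENNReal.ofReal_add (by positivity) (by positivity)]
  exact add_le_add b1 b2

end Pool.Agent.PCap704
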