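import Pool.Agent.PCap704.Tri

set_option autoImplicit false
open MeasureTheory Set Metric Filter
open scoped ENNReal NNReal Topology ComplexConjugate

namespace Pool.Agent.PCap704

theorem exists_admissible (K : Set ℂ) (hK : Bornology.IsBounded K) :
    ∃ u : ℂ → ℝ, ContDiff ℝ 1 u ∧ HasCompactSupport u ∧
    (∃ U : Set ℂ, IsOpen U ∧ K ⊆ U ∧ ∀ x ∈ U, 1 ≤ u x) := by
  obtain ⟨M, hM⟩ := hK.subset_ball_lt 0 (0:ℂ)
  obtain ⟨hM0, hM1⟩ := hM
  let φ : ContDiffBump (0 : ℂ) := ⟨M, M + 1, hM0, by linarith⟩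
  refine ⟨φ, φ.contDiff, φ.hasCompactSupport, ball 0 M, isOpen_ball, hM1, ?_⟩
  intro x hx
  exact (φ.one_of_mem_closedBall (ball_subset_closedBall hx)).ge

/-- deduce a capacity comparison from energies of every admissible function. -/
theorem cap_le_cap (p : ℝ) (c : ℝ) (K : Set ℂ) (hK : Bornology.IsBounded K)
    (h : ∀ u : ℂ → ℝ, ContDiff ℝ 1 u → HasCompactSupport u →
      (∃ U : Set ℂ, IsOpen U ∧ K ⊆ U ∧ ∀ x ∈ U, 1 ≤ u x) → c ≤ ∫ z, ‖fderiv ℝ u z‖ ^ p) :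
    c ≤ cap p K := by
  obtain ⟨u, h1, h2, h3⟩ := exists_admissible K hK
  apply le_csInf
  · exact ⟨_, u, h1, h2, h3, rfl⟩
  · rintro e ⟨v, g1, g2, g3, rfl⟩
    exact h v g1 g2 g3

/-- abstract form for triangles. -/
theorem tri_abs (p : ℝ) (hp : 0 < p) (P1 P2 P3 d1 d2 d3 : ℂ) (ℓ1 ℓ2 ℓ3 μ : ℝ) (hμ : 0 < μ)
    (hd1 : ‖d1‖ = 1) (hd2 : ‖d2‖ = 1) (hd3 : ‖d3‖ = 1)
    (h12 : P2 = P1 + ℓ1 * d1) (h23 : P3 = P2 + ℓ2 * d2) (h31 : P1 = P3 + ℓ3 * d3)
    (hℓ1 : 0 < ℓ1) (hℓ2 : 0 < ℓ2) (hℓ3 : 0 < ℓ3)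
    (β1 β2 β3 : ℝ) (hβ : β1 + β2 + β3 = Real.pi)
    (r1 : -d3 = d1 * Complex.exp ((β1:ℂ) * Complex.I))
    (r2 : -d1 = d2 * Complex.exp ((β2:ℂ) * Complex.I))
    (r3 : -d2 = d3 * Complex.exp ((β3:ℂ) * Complex.I))
    (a1 b1 a2 b2 a3 b3 : ℝ)
    (ha1 : 0 ≤ a1) (ha1' : a1 ≤ Real.pi/2) (hb1 : 0 ≤ b1) (hb1' : b1 ≤ Real.pi/2)
    (ha2 : 0 ≤ a2) (ha2' : a2 ≤ Real.pi/2) (hb2 : 0 ≤ b2) (hb2' : b2 ≤ Real.pi/2)
    (ha3 : 0 ≤ a3) (ha3' : a3 ≤ Real.pi/2) (hb3 : 0 ≤ b3) (hb3' : b3 ≤ Real.pi/2)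
    (e1 : ℓ1 = μ * a1 + μ * b1) (e2 : ℓ2 = μ * a2 + μ * b2) (e3 : ℓ3 = μ * a3 + μ * b3)
    (s1 : b3 + a1 + β1 = Real.pi) (s2 : b1 + a2 + β2 = Real.pi) (s3 : b2 + a3 + β3 = Real.pi)
    (a b : ℂ) (hab : dist a b = μ * Real.pi) :
    cap p (segment ℝ a b) ≤ cap p (convexHull ℝ {P1, P2, P3}) := by
  have hpi := Real.pi_pos
  apply cap_le_cap
  · exact isBounded_convexHull.2 (((Set.finite_singleton P3).insert P2).insert P1).isBounded
  rintro u hu huc ⟨U, hU, hKU, hu1⟩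
  have m1 : P1 ∈ convexHull ℝ {P1, P2, P3} := subset_convexHull ℝ _ (by simp)
  have m2 : P2 ∈ convexHull ℝ {P1, P2, P3} := subset_convexHull ℝ _ (by simp)
  have m3 : P3 ∈ convexHull ℝ {P1, P2, P3} := subset_convexHull ℝ _ (by simp)
  have hconv : Convex ℝ (convexHull ℝ {P1, P2, P3}) := convex_convexHull ℝ _
  have g1 : segment ℝ P1 P2 ⊆ U := (hconv.segment_subset m1 m2).trans hKU
  have g2 : segment ℝ P2 P3 ⊆ U := (hconv.segment_subset m2 m3).trans hKU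
  have g3 : segment ℝ P3 P1 ⊆ U := (hconv.segment_subset m3 m1).trans hKU
  have c1 := edge_bound p hp u hu huc U hU hu1 P1 P2 d1 ℓ1 μ hμ hd1 h12 g1 hℓ1 a1 b1
    ha1 ha1' hb1 hb1' e1 a b hab
  have c2 := edge_bound p hp u hu huc U hU hu1 P2 P3 d2 ℓ2 μ hμ hd2 h23 g2 hℓ2 a2 b2
    ha2 ha2' hb2 hb2' e2 a b hab
  have c3 := edge_bound p hp u hu huc U hU hu1 P3 P1 d3 ℓ3 μ hμ hd3 h31 g3 hℓ3 a3 b3
    ha3 ha3' hb3 hb3' e3 a b hab
  have za1 : 0 ≤ μ * a1 := by positivity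
  have zb1 : 0 ≤ μ * b1 := by positivity
  have za2 : 0 ≤ μ * a2 := by positivity
  have zb2 : 0 ≤ μ * b2 := by positivity
  have za3 : 0 ≤ μ * a3 := by positivity
  have zb3 : 0 ≤ μ * b3 := by positivity
  have D12 := reg_reg_disj P1 P2 P3 d1 d2 ℓ1 ℓ2 hd1 hd2 h12 h23 (μ*a1) a1 (μ*b1) b1
    (μ*a2) a2 (μ*b2) b2 β2 za1 zb1 za2 zb2 ha1' hb1 hb1' ha2 ha2' hb2' e1 e2 r2 s2
  have D23 := reg_reg_disj P2 P3 P1 d2 d3 ℓ2 ℓ3 hd2 hd3 h23 h31 (μ*a2) a2 (μ*b2) b2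
    (μ*a3) a3 (μ*b3) b3 β3 za2 zb2 za3 zb3 ha2' hb2 hb2' ha3 ha3' hb3' e2 e3 r3 s3
  have D31 := reg_reg_disj P3 P1 P2 d3 d1 ℓ3 ℓ1 hd3 hd1 h31 h12 (μ*a3) a3 (μ*b3) b3
    (μ*a1) a1 (μ*b1) b1 β1 za3 zb3 za1 zb1 ha3' hb3 hb3' ha1 ha1' hb1' e3 e1 r1 s1
  set R1 := reg P1 P2 d1 (μ*a1) a1 (μ*b1) b1 with hR1
  set R2 := reg P2 P3 d2 (μ*a2) a2 (μ*b2) b2 with hR2
  set R3 := reg P3 P1 d3 (μ*a3) a3 (μ*b3) b3 with hR3
  have M2 : MeasurableSet R2 := measurableSet_reg _ _ _ _ _ _ _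
  have M3 : MeasurableSet R3 := measurableSet_reg _ _ _ _ _ _ _
  have hsum : en p u R1 + en p u R2 + en p u R3 ≤ en p u univ := by
    have h1 : en p u (R1 ∪ R2) = en p u R1 + en p u R2 := by
      unfold en; rw [lintegral_union M2 D12]
    have h2 : en p u ((R1 ∪ R2) ∪ R3) = en p u (R1 ∪ R2) + en p u R3 := by
      unfold en; rw [lintegral_union M3 (Set.disjoint_union_left.2 ⟨D31.symm, D23⟩)]
    rw [← h1, ← h2]
    unfold en
    exact lintegral_mono_set (subset_univ _)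
  rw [en_univ p hp u hu huc] at hsum
  have hcap := cap_nonneg p (segment ℝ a b)
  have htot : ENNReal.ofReal (2 * Real.pi * cap p (segment ℝ a b)) ≤
      ENNReal.ofReal (2 * Real.pi * ∫ z, ‖fderiv ℝ u z‖ ^ p) := by
    have hE : (2 * Real.pi) * cap p (segment ℝ a b) = (a1 + b1) * cap p (segment ℝ a b) +
        (a2 + b2) * cap p (segment ℝ a b) + (a3 + b3) * cap p (segment ℝ a b) := by
      have : 2 * Real.pi = (a1 + b1) + (a2 + b2) + (a3 + b3) := by linarith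
      rw [this]; ring
    rw [hE, ENNReal.ofReal_add (by positivity) (by positivity),
      ENNReal.ofReal_add (by positivity) (by positivity)]
    calc _ ≤ ENNReal.ofReal (2 * Real.pi) * en p u R1 + ENNReal.ofReal (2 * Real.pi) * en p u R2 +
          ENNReal.ofReal (2 * Real.pi) * en p u R3 := add_le_add (add_le_add c1 c2) c3
      _ = ENNReal.ofReal (2 * Real.pi) * (en p u R1 + en p u R2 + en p u R3) := by ring
      _ ≤ ENNReal.ofReal (2 * Real.pi) * ENNReal.ofReal (∫ z, ‖fderiv ℝ u z‖ ^ p) := by gcongr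
      _ = _ := by rw [← ENNReal.ofReal_mul (by positivity)]
  have hE0 : 0 ≤ ∫ z, ‖fderiv ℝ u z‖ ^ p :=
    integral_nonneg fun z => Real.rpow_nonneg (norm_nonneg _) _
  have := (ENNReal.ofReal_le_ofReal_iff (by positivity)).1 htot
  exact le_of_mul_le_mul_left this (by positivity)

/-- choice of the free parameter -/
theorem exists_param (a b c β1 β2 β3 : ℝ) (hs : a + b + c = 2 * Real.pi)
    (hβ : β1 + β2 + β3 = Real.pi) (h1 : 0 < β1) (h2 : 0 < β2) (h3 : 0 < β3)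
    (ha : a ≤ Real.pi) (hb : b ≤ Real.pi) (hc : c ≤ Real.pi) (ha0 : 0 < a) (hb0 : 0 < b) (hc0 : 0 < c)
    (f1 : β1 ≤ a) (f2 : β2 ≤ b) (f3 : β3 ≤ c)
    (g1 : Real.pi/2 ≤ c + β1) (g2 : Real.pi/2 ≤ c + β2) (g3 : Real.pi/2 ≤ a + β2)
    (g4 : Real.pi/2 ≤ a + β3) (g5 : Real.pi/2 ≤ b + β3) (g6 : Real.pi/2 ≤ b + β1)
    (k1 : c + β1 ≤ 3*Real.pi/2) (k2 : c + β2 ≤ 3*Real.pi/2) (k3 : a + β2 ≤ 3*Real.pi/2)
    (k4 : a + β3 ≤ 3*Real.pi/2) (k5 : b + β3 ≤ 3*Real.pi/2) (k6 : b + β1 ≤ 3*Real.pi/2) :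
    ∃ t : ℝ, (0 ≤ t ∧ t ≤ Real.pi/2) ∧ (0 ≤ c - t ∧ c - t ≤ Real.pi/2) ∧
      (0 ≤ Real.pi - β2 - c + t ∧ Real.pi - β2 - c + t ≤ Real.pi/2) ∧
      (0 ≤ a - Real.pi + β2 + c - t ∧ a - Real.pi + β2 + c - t ≤ Real.pi/2) ∧
      (0 ≤ b - Real.pi + β1 + t ∧ b - Real.pi + β1 + t ≤ Real.pi/2) ∧
      (0 ≤ Real.pi - β1 - t ∧ Real.pi - β1 - t ≤ Real.pi/2) := by
  have hpi := Real.pi_pos
  set t := max 0 (max (c - Real.pi/2) (max (β2 + c - Real.pi) (max (a + c + β2 - 3*Real.pi/2)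
    (max (Real.pi - β1 - b) (Real.pi/2 - β1))))) with ht
  have l1 : 0 ≤ t := le_max_left _ _
  have l2 : c - Real.pi/2 ≤ t := (le_max_left _ _).trans (le_max_right _ _)
  have l3 : β2 + c - Real.pi ≤ t :=
    (le_max_left _ _).trans ((le_max_right _ _).trans (le_max_right _ _))
  have l4 : a + c + β2 - 3*Real.pi/2 ≤ t :=
    (le_max_left _ _).trans ((le_max_right _ _).trans ((le_max_right _ _).trans (le_max_right _ _)))
  have l5 : Real.pi - β1 - b ≤ t :=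
    (le_max_left _ _).trans ((le_max_right _ _).trans ((le_max_right _ _).trans
      ((le_max_right _ _).trans (le_max_right _ _))))
  have l6 : Real.pi/2 - β1 ≤ t :=
    (le_max_right _ _).trans ((le_max_right _ _).trans ((le_max_right _ _).trans
      ((le_max_right _ _).trans (le_max_right _ _))))
  have u1 : t ≤ Real.pi/2 := max_le (by linarith) (max_le (by linarith) (max_le (by linarith)
    (max_le (by linarith) (max_le (by linarith) (by linarith)))))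
  have u2 : t ≤ c := max_le (by linarith) (max_le (by linarith) (max_le (by linarith)
    (max_le (by linarith) (max_le (by linarith) (by linarith)))))
  have u3 : t ≤ β2 + c - Real.pi/2 := max_le (by linarith) (max_le (by linarith) (max_le (by linarith)
    (max_le (by linarith) (max_le (by linarith) (by linarith)))))
  have u4 : t ≤ a + c + β2 - Real.pi := max_le (by linarith) (max_le (by linarith)
    (max_le (by linarith) (max_le (by linarith) (max_le (by linarith) (by linarith)))))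
  have u5 : t ≤ 3*Real.pi/2 - β1 - b := max_le (by linarith) (max_le (by linarith)
    (max_le (by linarith) (max_le (by linarith) (max_le (by linarith) (by linarith)))))
  have u6 : t ≤ Real.pi - β1 := max_le (by linarith) (max_le (by linarith) (max_le (by linarith)
    (max_le (by linarith) (max_le (by linarith) (by linarith)))))
  refine ⟨t, ⟨l1, u1⟩, ⟨by linarith, by linarith⟩, ⟨by linarith, by linarith⟩,
    ⟨by linarith, by linarith⟩, ⟨by linarith, by linarith⟩, ⟨by linarith, by linarith⟩⟩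

/-- (perimeter) * angle ≤ 2π * (opposite side) -/
theorem side_ge (a b c θ : ℝ) (ha : 0 < a) (hb : 0 < b) (hc : 0 < c) (hθ0 : 0 ≤ θ)
    (hθ1 : θ ≤ Real.pi) (hlc : a^2 = b^2 + c^2 - 2*b*c*Real.cos θ) :
    (a + b + c) * θ ≤ 2 * Real.pi * a := by
  have hpi := Real.pi_pos
  set x := θ/2 with hx
  have hθ : θ = 2 * x := by rw [hx]; ring
  have hx0 : 0 ≤ x := by rw [hx]; linarith
  have hx1 : x ≤ Real.pi/2 := by rw [hx]; linarith
  set s := Real.sin x with hs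
  have hs0 : 2/Real.pi * x ≤ s := Real.mul_le_sin hx0 hx1
  have hs1 : s ≤ 1 := Real.sin_le_one x
  have hcos : Real.cos θ = 1 - 2 * s^2 := by
    rw [hθ, Real.cos_two_mul]
    have := Real.sin_sq_add_cos_sq x
    rw [hs]; linarith
  rcases eq_or_lt_of_le hx0 with h | h
  · rw [hθ, ← h]; simp; positivity
  have hsp : 0 < s := lt_of_lt_of_le (by positivity) hs0
  have h1 : (b + c) * s ≤ a := by
    have h2 : ((b + c) * s)^2 ≤ a^2 := by
      rw [hlc, hcos]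
      have h3 : s^2 ≤ 1 := by nlinarith
      nlinarith [mul_nonneg (sq_nonneg (b - c)) (sub_nonneg.2 h3)]
    exact (sq_le_sq₀ (by positivity) ha.le).1 h2
  have h4 : x * (1 + s) ≤ Real.pi * s := by
    have h5 : x ≤ (Real.pi - x) * s := by
      have h6 : (Real.pi - x) * (2/Real.pi * x) ≤ (Real.pi - x) * s :=
        mul_le_mul_of_nonneg_left hs0 (by linarith)
      have h7 : x ≤ (Real.pi - x) * (2/Real.pi * x) := by
        have : (Real.pi - x) * (2/Real.pi * x) = x * (2 * (Real.pi - x) / Real.pi) := by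
          field_simp
        rw [this]
        have h8 : 1 ≤ 2 * (Real.pi - x) / Real.pi := by
          rw [one_le_div hpi]; linarith
        nlinarith
      linarith
    nlinarith
  have h9 : ((a + b + c) * x) * s ≤ (Real.pi * a) * s := by
    have h10 : (a + b + c) * x * s ≤ (a * s + a) * x := by nlinarith [mul_le_mul_of_nonneg_right h1 hx0]
    have h11 : (a * s + a) * x ≤ a * (Real.pi * s) := by
      have := mul_le_mul_of_nonneg_left h4 ha.le
      nlinarith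
    linarith
  have := le_of_mul_le_mul_right h9 hsp
  rw [hθ]; linarith

/-- direction relation from the unoriented angle, for positively oriented vectors -/
theorem dir_rel (x y : ℂ) (hx : x ≠ 0) (hy : y ≠ 0) (h : 0 < (conj x * y).im) :
    y / (‖y‖ : ℂ) = x / (‖x‖ : ℂ) *
      Complex.exp ((InnerProductGeometry.angle x y : ℂ) * Complex.I) := by
  have hxn : (‖x‖ : ℂ) ≠ 0 := by exact_mod_cast (norm_pos_iff.2 hx).ne'
  have hyn : (‖y‖ : ℂ) ≠ 0 := by exact_mod_cast (norm_pos_iff.2 hy).ne'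
  have him : 0 < (y / x).im := by
    have e : y / x = (conj x * y) / ((Complex.normSq x : ℝ) : ℂ) := by
      rw [Complex.normSq_eq_conj_mul_self]
      have : conj x ≠ 0 := (map_ne_zero _).2 hx
      field_simp
    rw [e, Complex.div_ofReal_im]
    exact div_pos h (Complex.normSq_pos.2 hx)
  have harg : InnerProductGeometry.angle x y = (y / x).arg := by
    rw [InnerProductGeometry.angle_comm, Complex.angle_eq_abs_arg hy hx, abs_of_nonneg]
    exact Complex.arg_nonneg_iff.2 him.le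
  rw [harg]
  have h1 : y / x = (‖y / x‖ : ℂ) * Complex.exp (((y / x).arg : ℂ) * Complex.I) :=
    (Complex.norm_mul_exp_arg_mul_I _).symm
  have h2 : (‖y / x‖ : ℂ) = (‖y‖ : ℂ) / (‖x‖ : ℂ) := by
    rw [norm_div]; push_cast; ring
  rw [h2] at h1
  set E := Complex.exp (((y / x).arg : ℂ) * Complex.I) with hE
  have h3 : y * (‖x‖ : ℂ) = (‖y‖ : ℂ) * E * x := by
    have h4 : y / x = (‖y‖ : ℂ) / (‖x‖ : ℂ) * E := h1
    rw [div_mul_eq_mul_div, div_eq_div_iff hx hxn] at h4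
    exact h4
  rw [div_mul_eq_mul_div, div_eq_div_iff hyn hxn, h3]
  ring

end Pool.Agent.PCap704
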