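import Pool.Agent.PCap704.Tri2

set_option autoImplicit false
open MeasureTheory Set Metric Filter
open scoped ENNReal NNReal Topology ComplexConjugate EuclideanGeometry

namespace Pool.Agent.PCap704

/-- The balancing condition for a side of length `s` and an adjacent angle `θ`
in a triangle of perimeter `L`. -/
def Bal (L s θ : ℝ) : Prop :=
  L / 4 ≤ s + L / (2 * Real.pi) * θ ∧ s + L / (2 * Real.pi) * θ ≤ 3 * L / 4

theorem orient_eq2 (A B C : ℂ) :
    (conj (C - B) * (A - B)).im = (conj (B - A) * (C - A)).im := by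
  simp only [Complex.mul_im, Complex.conj_re, Complex.conj_im, Complex.sub_re, Complex.sub_im]
  ring

theorem orient_swap (A B C : ℂ) :
    (conj (C - A) * (B - A)).im = -(conj (B - A) * (C - A)).im := by
  simp only [Complex.mul_im, Complex.conj_re, Complex.conj_im, Complex.sub_re, Complex.sub_im]
  ring

theorem orient_ne (A B C : ℂ) (h : ¬ Collinear ℝ {A, B, C}) :
    (conj (B - A) * (C - A)).im ≠ 0 := by
  intro h0
  have hAB : A ≠ B := ne₁₂_of_not_collinear h
  have hAC : A ≠ C := ne₁₃_of_not_collinear h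
  have hx : B - A ≠ 0 := sub_ne_zero.2 hAB.symm
  have hy : C - A ≠ 0 := sub_ne_zero.2 hAC.symm
  have him : ((C - A) / (B - A)).im = 0 := by
    have e : (C - A) / (B - A) = (conj (B - A) * (C - A)) / ((Complex.normSq (B - A) : ℝ) : ℂ) := by
      rw [Complex.normSq_eq_conj_mul_self]
      have : conj (B - A) ≠ 0 := (map_ne_zero _).2 hx
      field_simp
    rw [e, Complex.div_ofReal_im, h0, zero_div]
  have hang : ∠ B A C = |((C - A) / (B - A)).arg| := by
    unfold EuclideanGeometry.angle
    rw [vsub_eq_sub, vsub_eq_sub, InnerProductGeometry.angle_comm, Complex.angle_eq_abs_arg hy hx]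
  have hcol : ∠ B A C = 0 ∨ ∠ B A C = Real.pi := by
    rcases le_or_gt 0 ((C - A) / (B - A)).re with hr | hr
    · left
      rw [hang, Complex.arg_eq_zero_iff.2 ⟨hr, him⟩, abs_zero]
    · right
      rw [hang, Complex.arg_eq_pi_iff.2 ⟨hr, him⟩, abs_of_pos Real.pi_pos]
  have hc2 : Collinear ℝ {B, A, C} := by
    rcases hcol with h1 | h1
    · exact EuclideanGeometry.collinear_of_angle_eq_zero h1
    · exact EuclideanGeometry.collinear_of_angle_eq_pi h1
  apply h
  rw [Set.insert_comm]
  exact hc2

/-- positively oriented triangles -/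
theorem tri_pos (p : ℝ) (hp : 0 < p) (A B C : ℂ) (hnc : ¬ Collinear ℝ {A, B, C})
    (hor : 0 < (conj (B - A) * (C - A)).im) (E F : ℂ)
    (L : ℝ) (hL : L = dist A B + dist B C + dist C A) (hEF : 2 * dist E F = L)
    (g1 : Bal L (dist A B) (∠ B A C)) (g6 : Bal L (dist C A) (∠ B A C))
    (g2 : Bal L (dist A B) (∠ C B A)) (g3 : Bal L (dist B C) (∠ C B A))
    (g4 : Bal L (dist B C) (∠ A C B)) (g5 : Bal L (dist C A) (∠ A C B)) :
    cap p (segment ℝ E F) ≤ cap p (convexHull ℝ {A, B, C}) := by
  have hpi := Real.pi_pos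
  have hAB : A ≠ B := ne₁₂_of_not_collinear hnc
  have hAC : A ≠ C := ne₁₃_of_not_collinear hnc
  have hBC : B ≠ C := ne₂₃_of_not_collinear hnc
  have pc : 0 < dist A B := dist_pos.2 hAB
  have pa : 0 < dist B C := dist_pos.2 hBC
  have pb : 0 < dist C A := dist_pos.2 hAC.symm
  have hLp : 0 < L := by rw [hL]; positivity
  set μ : ℝ := L / (2 * Real.pi) with hμ
  have hμp : 0 < μ := by rw [hμ]; positivity
  have hμL : L = 2 * Real.pi * μ := by rw [hμ]; field_simp
  -- angles
  have hcolBAC : ¬ Collinear ℝ {B, A, C} := by rw [Set.insert_comm]; exact hnc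
  have hcolCBA : ¬ Collinear ℝ {C, B, A} := by
    have : ({C, B, A} : Set ℂ) = {A, B, C} := by
      ext z; simp only [mem_insert_iff, mem_singleton_iff]; tauto
    rw [this]; exact hnc
  have hcolACB : ¬ Collinear ℝ {A, C, B} := by
    have : ({A, C, B} : Set ℂ) = {A, B, C} := by
      ext z; simp only [mem_insert_iff, mem_singleton_iff]; tauto
    rw [this]; exact hnc
  have q1 : 0 < ∠ B A C := EuclideanGeometry.angle_pos_of_not_collinear hcolBAC
  have q2 : 0 < ∠ C B A := EuclideanGeometry.angle_pos_of_not_collinear hcolCBA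
  have q3 : 0 < ∠ A C B := EuclideanGeometry.angle_pos_of_not_collinear hcolACB
  have hsumang : ∠ B A C + ∠ C B A + ∠ A C B = Real.pi := by
    have := EuclideanGeometry.angle_add_angle_add_angle_eq_pi C hAB.symm
    -- ∠ A B C + ∠ B C A + ∠ C A B = π
    rw [EuclideanGeometry.angle_comm A B C, EuclideanGeometry.angle_comm B C A,
      EuclideanGeometry.angle_comm C A B] at this
    linarith
  -- side-angle inequalities
  have tri1 : dist B C ≤ dist A B + dist C A := by
    have := dist_triangle B A C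
    rw [dist_comm B A, dist_comm A C] at this; exact this
  have tri2 : dist C A ≤ dist A B + dist B C := by
    have := dist_triangle C B A
    rw [dist_comm C B, dist_comm B A] at this; linarith
  have tri3 : dist A B ≤ dist B C + dist C A := by
    have := dist_triangle A C B
    rw [dist_comm A C, dist_comm C B] at this; linarith
  have s1 : L * ∠ B A C ≤ 2 * Real.pi * dist B C := by
    have lc := EuclideanGeometry.law_cos B A C
    have := side_ge (dist B C) (dist C A) (dist A B) (∠ B A C) pa pb pc q1.le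
      (EuclideanGeometry.angle_le_pi _ _ _) (by
        rw [dist_comm B A] at lc
        nlinarith [lc])
    rw [hL]; linarith
  have s2 : L * ∠ C B A ≤ 2 * Real.pi * dist C A := by
    have lc := EuclideanGeometry.law_cos C B A
    have := side_ge (dist C A) (dist A B) (dist B C) (∠ C B A) pb pc pa q2.le
      (EuclideanGeometry.angle_le_pi _ _ _) (by
        rw [dist_comm C B] at lc
        nlinarith [lc])
    rw [hL]; linarith
  have s3 : L * ∠ A C B ≤ 2 * Real.pi * dist A B := by
    have lc := EuclideanGeometry.law_cos A C B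
    have := side_ge (dist A B) (dist B C) (dist C A) (∠ A C B) pc pa pb q3.le
      (EuclideanGeometry.angle_le_pi _ _ _) (by
        rw [dist_comm A C] at lc
        nlinarith [lc])
    rw [hL]; linarith
  -- normalised sides
  set a : ℝ := dist B C / μ with ha
  set b : ℝ := dist C A / μ with hb
  set c : ℝ := dist A B / μ with hc
  have ea : dist B C = μ * a := by rw [ha]; field_simp
  have eb : dist C A = μ * b := by rw [hb]; field_simp
  have ec : dist A B = μ * c := by rw [hc]; field_simp
  have pa' : 0 < a := by rw [ha]; positivity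
  have pb' : 0 < b := by rw [hb]; positivity
  have pc' : 0 < c := by rw [hc]; positivity
  have cancel : ∀ x y : ℝ, μ * x ≤ μ * y → x ≤ y := fun x y h => le_of_mul_le_mul_left h hμp
  have hs : a + b + c = 2 * Real.pi := by
    have : μ * (a + b + c) = μ * (2 * Real.pi) := by
      have : μ * (a + b + c) = μ * a + μ * b + μ * c := by ring
      rw [this, ← ea, ← eb, ← ec]; linarith
    exact mul_left_cancel₀ hμp.ne' this
  obtain ⟨t, ht1, ht2, ht3, ht4, ht5, ht6⟩ := exists_param a b c (∠ B A C) (∠ C B A) (∠ A C B) hs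
    hsumang q1 q2 q3
    (cancel _ _ (by rw [← ea]; linarith)) (cancel _ _ (by rw [← eb]; linarith))
    (cancel _ _ (by rw [← ec]; linarith)) pa' pb' pc'
    (cancel _ _ (by
      rw [← ea]
      have : 2 * Real.pi * (μ * ∠ B A C) ≤ 2 * Real.pi * dist B C := by
        have e : 2 * Real.pi * (μ * ∠ B A C) = L * ∠ B A C := by rw [hμL]; ring
        rw [e]; exact s1
      exact le_of_mul_le_mul_left this (by positivity)))
    (cancel _ _ (by
      rw [← eb]
      have : 2 * Real.pi * (μ * ∠ C B A) ≤ 2 * Real.pi * dist C A := by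
        have e : 2 * Real.pi * (μ * ∠ C B A) = L * ∠ C B A := by rw [hμL]; ring
        rw [e]; exact s2
      exact le_of_mul_le_mul_left this (by positivity)))
    (cancel _ _ (by
      rw [← ec]
      have : 2 * Real.pi * (μ * ∠ A C B) ≤ 2 * Real.pi * dist A B := by
        have e : 2 * Real.pi * (μ * ∠ A C B) = L * ∠ A C B := by rw [hμL]; ring
        rw [e]; exact s3
      exact le_of_mul_le_mul_left this (by positivity)))
    (cancel _ _ (by have := g1.1; rw [← hμ] at this; linarith))
    (cancel _ _ (by have := g2.1; rw [← hμ] at this; linarith))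
    (cancel _ _ (by have := g3.1; rw [← hμ] at this; linarith))
    (cancel _ _ (by have := g4.1; rw [← hμ] at this; linarith))
    (cancel _ _ (by have := g5.1; rw [← hμ] at this; linarith))
    (cancel _ _ (by have := g6.1; rw [← hμ] at this; linarith))
    (cancel _ _ (by have := g1.2; rw [← hμ] at this; linarith))
    (cancel _ _ (by have := g2.2; rw [← hμ] at this; linarith))
    (cancel _ _ (by have := g3.2; rw [← hμ] at this; linarith))
    (cancel _ _ (by have := g4.2; rw [← hμ] at this; linarith))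
    (cancel _ _ (by have := g5.2; rw [← hμ] at this; linarith))
    (cancel _ _ (by have := g6.2; rw [← hμ] at this; linarith))
  -- directions
  have nAB : ‖B - A‖ = dist A B := by rw [dist_comm, dist_eq_norm]
  have nBC : ‖C - B‖ = dist B C := by rw [dist_comm, dist_eq_norm]
  have nCA : ‖A - C‖ = dist C A := by rw [dist_comm, dist_eq_norm]
  have zAB : B - A ≠ 0 := sub_ne_zero.2 hAB.symm
  have zBC : C - B ≠ 0 := sub_ne_zero.2 hBC.symm
  have zCA : A - C ≠ 0 := sub_ne_zero.2 hAC
  have cAB : (‖B - A‖ : ℂ) ≠ 0 := by exact_mod_cast (norm_pos_iff.2 zAB).ne'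
  have cBC : (‖C - B‖ : ℂ) ≠ 0 := by exact_mod_cast (norm_pos_iff.2 zBC).ne'
  have cCA : (‖A - C‖ : ℂ) ≠ 0 := by exact_mod_cast (norm_pos_iff.2 zCA).ne'
  have unit : ∀ z : ℂ, z ≠ 0 → ‖z / (‖z‖ : ℂ)‖ = 1 := by
    intro z hz
    rw [norm_div, Complex.norm_real, norm_norm, div_self (norm_pos_iff.2 hz).ne']
  have r1 := dir_rel (B - A) (C - A) zAB (by rw [← neg_ne_zero, neg_sub]; exact zCA) hor
  have r2 := dir_rel (C - B) (A - B) zBC (by rw [← neg_ne_zero, neg_sub]; exact zAB)
    (by rw [orient_eq2]; exact hor)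
  have r3 := dir_rel (A - C) (B - C) zCA (by rw [← neg_ne_zero, neg_sub]; exact zBC)
    (by rw [orient_eq2, orient_eq2]; exact hor)
  have neg1 : ∀ z : ℂ, -((z) / (‖z‖ : ℂ)) = (-z) / (‖-z‖ : ℂ) := by
    intro z; rw [norm_neg]; ring
  apply tri_abs p hp A B C ((B - A)/(‖B - A‖ : ℂ)) ((C - B)/(‖C - B‖ : ℂ)) ((A - C)/(‖A - C‖ : ℂ))
    (dist A B) (dist B C) (dist C A) μ hμp (unit _ zAB) (unit _ zBC) (unit _ zCA)
    (by rw [← nAB]; field_simp; ring) (by rw [← nBC]; field_simp; ring)
    (by rw [← nCA]; field_simp; ring) pc pa pb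
    (∠ B A C) (∠ C B A) (∠ A C B) hsumang
    (by rw [neg1, neg_sub]; exact r1) (by rw [neg1, neg_sub]; exact r2)
    (by rw [neg1, neg_sub]; exact r3)
    t (c - t) (Real.pi - ∠ C B A - c + t) (a - Real.pi + ∠ C B A + c - t)
    (b - Real.pi + ∠ B A C + t) (Real.pi - ∠ B A C - t)
    ht1.1 ht1.2 ht2.1 ht2.2 ht3.1 ht3.2 ht4.1 ht4.2 ht5.1 ht5.2 ht6.1 ht6.2
    (by rw [ec]; ring) (by rw [ea]; ring) (by rw [eb]; ring)
    (by ring) (by ring) (by linarith) E F (by rw [hμL] at hEF; linarith)

/-- every nondegenerate balanced triangle. -/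
theorem tri_general (p : ℝ) (hp : 0 < p) (A B C : ℂ) (hnc : ¬ Collinear ℝ {A, B, C})
    (E F : ℂ) (L : ℝ) (hL : L = dist A B + dist B C + dist C A) (hEF : 2 * dist E F = L)
    (g1 : Bal L (dist A B) (∠ B A C)) (g6 : Bal L (dist C A) (∠ B A C))
    (g2 : Bal L (dist A B) (∠ C B A)) (g3 : Bal L (dist B C) (∠ C B A))
    (g4 : Bal L (dist B C) (∠ A C B)) (g5 : Bal L (dist C A) (∠ A C B)) :
    cap p (segment ℝ E F) ≤ cap p (convexHull ℝ {A, B, C}) := by
  rcases lt_or_gt_of_ne (orient_ne A B C hnc) with h | h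
  · have e : ({A, C, B} : Set ℂ) = {A, B, C} := by
      ext z; simp only [mem_insert_iff, mem_singleton_iff]; tauto
    rw [← e]
    apply tri_pos p hp A C B (by rw [e]; exact hnc) (by rw [orient_swap]; linarith) E F L
      (by rw [hL, dist_comm A C, dist_comm C B, dist_comm B A]; ring) hEF
    · rw [dist_comm A C, EuclideanGeometry.angle_comm]; exact g6
    · rw [dist_comm B A, EuclideanGeometry.angle_comm]; exact g1
    · rw [dist_comm A C, EuclideanGeometry.angle_comm]; exact g5
    · rw [dist_comm C B, EuclideanGeometry.angle_comm]; exact g4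
    · rw [dist_comm C B, EuclideanGeometry.angle_comm]; exact g3
    · rw [dist_comm B A, EuclideanGeometry.angle_comm]; exact g2
  · exact tri_pos p hp A B C hnc h E F L hL hEF g1 g6 g2 g3 g4 g5

end Pool.Agent.PCap704
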